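import Mathlib

/-!
Homomorphisms between finite abelian groups with a prescribed value.
-/

set_option autoImplicit false

namespace Pool.Agent.Helper832.CentAut

/-- Cyclic target. -/
theorem exists_hom_cyclic {A C : Type} [CommGroup A] [Finite A] [CommGroup C] [Finite C]
    [IsCyclic C] (x : A) (w : C)
    (h : ∀ m : ℕ, (∃ y : A, x ^ m = y ^ (Nat.card C)) → w ^ m = 1) :
    ∃ f : A →* C, f x = w := by
  classical
  set n := Nat.card C with hn
  have hn0 : n ≠ 0 := Nat.card_pos.ne'
  have : NeZero n := ⟨hn0⟩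
  -- identify C with the roots of unity
  have hcard : Nat.card C = Nat.card (rootsOfUnity n ℂ) := by
    rw [HasEnoughRootsOfUnity.natCard_rootsOfUnity ℂ n]
  let e : C ≃* rootsOfUnity n ℂ := mulEquivOfCyclicCardEq hcard
  let R : Subgroup A := (powMonoidHom n : A →* A).range
  let B := A ⧸ R
  let q : A →* B := QuotientGroup.mk' R
  let b : B := q x
  have hb : ∀ c : B, c ^ n = 1 := by
    intro c
    obtain ⟨a, rfl⟩ := QuotientGroup.mk'_surjective R c
    rw [← map_pow]
    exact (QuotientGroup.eq_one_iff _).mpr ⟨a, rfl⟩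
  have hk : w ^ orderOf b = 1 := by
    apply h
    have h1 : q (x ^ orderOf b) = 1 := by
      rw [map_pow]
      exact pow_orderOf_eq_one b
    obtain ⟨y, hy⟩ := (QuotientGroup.eq_one_iff _).mp h1
    exact ⟨y, hy.symm⟩
  let H : Subgroup B := Subgroup.zpowers b
  let b' : H := ⟨b, Subgroup.mem_zpowers b⟩
  have hb' : ∀ c : H, c ∈ Subgroup.zpowers b' := by
    rintro ⟨c, hc⟩
    obtain ⟨i, hi⟩ := Subgroup.mem_zpowers_iff.mp hc
    exact Subgroup.mem_zpowers_iff.mpr ⟨i, Subtype.ext hi⟩
  have hord : orderOf (((e w : rootsOfUnity n ℂ) : ℂˣ)) ∣ orderOf b' := by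
    rw [orderOf_dvd_iff_pow_eq_one]
    have h1 : orderOf b' = orderOf b := Subgroup.orderOf_mk b _
    rw [h1]
    have h2 : (e w) ^ orderOf b = 1 := by
      rw [← map_pow, hk, map_one]
    have h3 := congrArg (Subtype.val) h2
    simpa using h3
  let φ0 : H →* ℂˣ := monoidHomOfForallMemZpowers hb' hord
  have hφ0 : φ0 b' = ((e w : rootsOfUnity n ℂ) : ℂˣ) :=
    monoidHomOfForallMemZpowers_apply_gen hb' hord
  obtain ⟨φ, hφ⟩ := MonoidHom.domRestrict_surjective (G := B) (M := ℂ) H φ0
  have hφb : φ b = ((e w : rootsOfUnity n ℂ) : ℂˣ) := by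
    rw [← hφ0, ← hφ]
    rfl
  have hmem : ∀ c : B, φ c ∈ rootsOfUnity n ℂ := by
    intro c
    rw [mem_rootsOfUnity, ← map_pow, hb c, map_one]
  let ψ : B →* rootsOfUnity n ℂ := φ.codRestrict (rootsOfUnity n ℂ) hmem
  refine ⟨(e.symm.toMonoidHom.comp ψ).comp q, ?_⟩
  have h1 : ψ b = e w := Subtype.ext hφb
  show e.symm (ψ b) = w
  rw [h1, MulEquiv.symm_apply_apply]

/-- General target: an element `z` is the image of `x` under some homomorphism as soon as the
divisibility relations satisfied by `x` are satisfied by `z`. -/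
theorem exists_hom {A Z : Type} [CommGroup A] [Finite A] [CommGroup Z] [Finite Z] (x : A) (z : Z)
    (h : ∀ m n : ℕ, (∃ y : A, x ^ m = y ^ n) → ∃ w : Z, z ^ m = w ^ n) :
    ∃ f : A →* Z, f x = z := by
  classical
  obtain ⟨ι, _, n, hn, ⟨e⟩⟩ := CommGroup.equiv_prod_multiplicative_zmod_of_finite Z
  have key : ∀ i : ι, ∃ f : A →* Multiplicative (ZMod (n i)), f x = e z i := by
    intro i
    have : NeZero (n i) := ⟨by have := hn i; omega⟩
    have hc : Nat.card (Multiplicative (ZMod (n i))) = n i := by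
      rw [Nat.card_congr Multiplicative.toAdd, Nat.card_zmod]
    have : Finite (Multiplicative (ZMod (n i))) := inferInstance
    refine exists_hom_cyclic x (e z i) ?_
    intro m hm
    rw [hc] at hm
    obtain ⟨w, hw⟩ := h m (n i) hm
    have h1 : (e z i) ^ m = (e w i) ^ (n i) := by
      have := congrFun (congrArg e hw) i
      rw [map_pow, map_pow] at this
      exact this
    rw [h1]
    have h2 := pow_card_eq_one' (x := e w i)
    rw [hc] at h2
    exact h2
  choose f hf using key
  refine ⟨e.symm.toMonoidHom.comp (MonoidHom.pi f), ?_⟩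
  show e.symm (fun i => f i x) = z
  rw [MulEquiv.symm_apply_eq]
  funext i
  exact hf i

end Pool.Agent.Helper832.CentAut
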