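import Mathlib
import Pool.Agent.Helper832.AutC.Two
import Pool.Agent.Helper832.CentAut.Ext

/-!
Central and class-preserving automorphisms of finite groups of class two.
-/

set_option autoImplicit false

open scoped commutatorElement

namespace Pool.Agent.Helper832.CentAut

open Pool.Agent.Helper832.AutC

/-- `α` is a central automorphism -/
def IsCentralAut {G : Type} [Group G] (α : G ≃* G) : Prop :=
  ∀ x : G, x⁻¹ * α x ∈ Subgroup.center G

/-- `α` is a class-preserving automorphism -/
def IsClassPreserving {G : Type} [Group G] (α : G ≃* G) : Prop :=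
  ∀ x : G, IsConj x (α x)

section

variable {G : Type} [Group G]

lemma conj_form (hc : ∀ a b c : G, ⁅⁅a, b⁆, c⁆ = 1) (x g : G) :
    x * ⁅x, g⁻¹⁆ = g * x * g⁻¹ := by
  have h1 := (commutatorElement_eq_one_iff_mul_comm).mp (hc x g⁻¹ g)
  have h2 := (commutatorElement_eq_one_iff_mul_comm).mp (hc x g⁻¹ x)
  have h3 : ⁅x, g⁻¹⁆ = g * ⁅x, g⁻¹⁆ * g⁻¹ := by
    rw [← h1]
    group
  rw [← h2, h3]
  simp only [commutatorElement_def]
  group

/-- the endomorphism `x ↦ x f(x)` -/
def endo (f : G →* Subgroup.center G) : G →* G :=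
  MonoidHom.mk' (fun x => x * (f x : G)) (by
    intro a b
    have h := (Subgroup.mem_center_iff.mp (f a).2) b
    show a * b * ((f (a * b) : Subgroup.center G) : G) = a * (f a : G) * (b * (f b : G))
    rw [map_mul, Subgroup.coe_mul]
    calc a * b * ((f a : G) * (f b : G)) = a * (b * (f a : G)) * (f b : G) := by group
      _ = a * ((f a : G) * b) * (f b : G) := by rw [h]
      _ = a * (f a : G) * (b * (f b : G)) := by group)

lemma endo_apply (f : G →* Subgroup.center G) (x : G) : endo f x = x * (f x : G) := rfl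

lemma exists_aut [Finite G] (f : G →* Subgroup.center G)
    (hinj : ∀ z : G, z ∈ Subgroup.center G → (f z : G) = z⁻¹ → z = 1) :
    ∃ α : G ≃* G, ∀ x, α x = x * (f x : G) := by
  have h1 : Function.Injective (endo f) := by
    rw [injective_iff_map_eq_one]
    intro x hx
    rw [endo_apply] at hx
    have h2 : (f x : G) = x⁻¹ := (inv_eq_of_mul_eq_one_right hx).symm
    have h3 : x ∈ Subgroup.center G := by
      have := (f x).2
      rw [h2] at this
      exact (Subgroup.inv_mem_iff _).mp this
    exact hinj x h3 h2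
  have h2 : Function.Bijective (endo f) := Finite.injective_iff_bijective.mp h1
  exact ⟨MulEquiv.ofBijective (endo f) h2, fun x => rfl⟩

/-- The basic consequence of the hypothesis. -/
lemma basic [Finite G] (hc : ∀ a b c : G, ⁅⁅a, b⁆, c⁆ = 1)
    (H : ∀ α : G ≃* G, IsCentralAut α → IsClassPreserving α) (f : G →* Subgroup.center G)
    (hinj : ∀ z : G, z ∈ Subgroup.center G → (f z : G) = z⁻¹ → z = 1) :
    (∀ z ∈ Subgroup.center G, f z = 1) ∧ ∀ x, ∃ g, (f x : G) = ⁅x, g⁆ := by
  obtain ⟨α, hα⟩ := exists_aut f hinj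
  have hcent : IsCentralAut α := by
    intro x
    rw [hα, inv_mul_cancel_left]
    exact (f x).2
  have hcl := H α hcent
  have h2 : ∀ x, ∃ g, (f x : G) = ⁅x, g⁆ := by
    intro x
    obtain ⟨g, hg⟩ := isConj_iff.mp (hcl x)
    refine ⟨g⁻¹, ?_⟩
    have h3 := conj_form hc x g
    rw [hg, hα] at h3
    exact (mul_left_cancel h3).symm
  refine ⟨?_, h2⟩
  intro z hz
  obtain ⟨g, hg⟩ := h2 z
  apply Subtype.ext
  rw [hg]
  show ⁅z, g⁆ = 1
  rw [commutatorElement_eq_one_iff_mul_comm]
  exact ((Subgroup.mem_center_iff.mp hz) g).symm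

lemma kills_commutator (f : G →* Subgroup.center G) {x : G} (hx : x ∈ commutator G) :
    f x = 1 := by
  have h := Abelianization.commutator_subset_ker f hx
  exact h

/-- Elements of the centre are `p`-th powers modulo the derived subgroup. -/
lemma center_pow [Finite G] {p : ℕ} [hpf : Fact p.Prime]
    (hc : ∀ a b c : G, ⁅⁅a, b⁆, c⁆ = 1)
    (H : ∀ α : G ≃* G, IsCentralAut α → IsClassPreserving α)
    (u : G) (hu : u ∈ commutator G) (huc : u ∈ Subgroup.center G) (hup : orderOf u = p)
    (z : G) (hz : z ∈ Subgroup.center G) :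
    ∃ y : G, (Abelianization.of z : Abelianization G) = (Abelianization.of y) ^ p := by
  classical
  by_contra hcon
  let R : Subgroup (Abelianization G) := (powMonoidHom p : _ →* Abelianization G).range
  have hzR : (Abelianization.of z : Abelianization G) ∉ R := by
    rintro ⟨b, hb⟩
    obtain ⟨y, rfl⟩ := QuotientGroup.mk'_surjective _ b
    exact hcon ⟨y, hb.symm⟩
  have : Finite (Abelianization G) := Quotient.finite _
  rw [← CommGroup.forall_monoidHom_apply_eq_one_iff (M := ℂ) R] at hzR
  push Not at hzR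
  obtain ⟨χ, hχ, hχz⟩ := hzR
  have : NeZero p := ⟨hpf.out.ne_zero⟩
  have hmem : ∀ b, χ b ∈ rootsOfUnity p ℂ := by
    intro b
    rw [mem_rootsOfUnity, ← map_pow]
    exact hχ _ ⟨b, rfl⟩
  let ψ : Abelianization G →* rootsOfUnity p ℂ := χ.codRestrict _ hmem
  let u' : Subgroup.center G := ⟨u, huc⟩
  have hu' : orderOf u' = p := by
    rw [← hup]
    exact Subgroup.orderOf_mk u huc
  have hcard : Nat.card (rootsOfUnity p ℂ) = Nat.card (Subgroup.zpowers u') := by
    rw [HasEnoughRootsOfUnity.natCard_rootsOfUnity ℂ p, Nat.card_zpowers, hu']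
  let e : rootsOfUnity p ℂ ≃* Subgroup.zpowers u' := mulEquivOfCyclicCardEq hcard
  let f : G →* Subgroup.center G :=
    (((Subgroup.zpowers u').subtype.comp e.toMonoidHom).comp ψ).comp Abelianization.of
  have hf : ∀ x, ∃ j : ℤ, (f x : G) = u ^ j := by
    intro x
    obtain ⟨j, hj⟩ := Subgroup.mem_zpowers_iff.mp (e (ψ (Abelianization.of x))).2
    refine ⟨j, ?_⟩
    have := congrArg (Subtype.val) hj
    simpa [f, u'] using this.symm
  have hb := basic hc H f (by
    intro x _ hx
    obtain ⟨j, hj⟩ := hf x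
    have h1 : x ∈ commutator G := by
      rw [hj] at hx
      have h2 : x⁻¹ ∈ commutator G := by
        rw [← hx]
        exact Subgroup.zpow_mem _ hu j
      exact (Subgroup.inv_mem_iff _).mp h2
    have h3 := kills_commutator f h1
    rw [h3] at hx
    have h4 : x⁻¹ = 1 := hx.symm
    exact inv_eq_one.mp h4)
  have h1 := hb.1 z hz
  have h2 : e (ψ (Abelianization.of z)) = 1 := Subtype.ext h1
  have h3 : ψ (Abelianization.of z) = 1 := (MulEquiv.map_eq_one_iff e).mp h2
  exact hχz (congrArg Subtype.val h3)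

/-- All homomorphisms to the centre kill the centre. -/
lemma all_hom [Finite G] {p : ℕ} [hpf : Fact p.Prime] (hp : IsPGroup p G)
    (hc : ∀ a b c : G, ⁅⁅a, b⁆, c⁆ = 1)
    (H : ∀ α : G ≃* G, IsCentralAut α → IsClassPreserving α)
    (u : G) (hu : u ∈ commutator G) (huc : u ∈ Subgroup.center G) (hup : orderOf u = p)
    (f : G →* Subgroup.center G) :
    (∀ z ∈ Subgroup.center G, f z = 1) ∧ ∀ x, ∃ g, (f x : G) = ⁅x, g⁆ := by
  apply basic hc H f
  intro z hz hfz
  have hz0 : f z = (⟨z, hz⟩ : Subgroup.center G)⁻¹ := Subtype.ext hfz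
  have key : ∀ n : ℕ, ∃ w : Subgroup.center G, (⟨z, hz⟩ : Subgroup.center G) = w ^ (p ^ n) := by
    intro n
    induction n with
    | zero => exact ⟨⟨z, hz⟩, by simp⟩
    | succ n ih =>
      obtain ⟨w, hw⟩ := ih
      obtain ⟨y, hy⟩ := center_pow hc H u hu huc hup (w : G) w.2
      have h1 : f (w : G) = (f y) ^ p := by
        have h2 := congrArg (Abelianization.lift f) hy
        rw [map_pow, Abelianization.lift_apply_of, Abelianization.lift_apply_of] at h2
        exact h2
      refine ⟨(f y)⁻¹, ?_⟩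
      have h3 : z = (w : G) ^ (p ^ n) := by
        have := congrArg Subtype.val hw
        simpa using this
      have h4 : f z = (f y) ^ (p ^ (n + 1)) := by
        rw [h3, map_pow, h1, ← pow_mul, pow_succ, mul_comm]
      rw [inv_pow, ← h4, hz0, inv_inv]
  obtain ⟨k, hk⟩ := IsPGroup.iff_card.mp hp
  obtain ⟨w, hw⟩ := key k
  have h1 : (w : G) ^ (p ^ k) = 1 := by
    rw [← hk]
    exact pow_card_eq_one'
  have h2 := congrArg Subtype.val hw
  rw [Subgroup.coe_pow, h1] at h2
  exact h2

/-- The centre is the derived subgroup. -/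
lemma center_le [Finite G] {p : ℕ} [hpf : Fact p.Prime] (hp : IsPGroup p G)
    (hc : ∀ a b c : G, ⁅⁅a, b⁆, c⁆ = 1)
    (H : ∀ α : G ≃* G, IsCentralAut α → IsClassPreserving α)
    (u : G) (hu : u ∈ commutator G) (huc : u ∈ Subgroup.center G) (hup : orderOf u = p) :
    Subgroup.center G ≤ commutator G := by
  classical
  intro z hz
  by_contra hzn
  have : Finite (Abelianization G) := Quotient.finite _
  have hz1 : (Abelianization.of z : Abelianization G) ≠ 1 := by
    intro h0
    exact hzn ((QuotientGroup.eq_one_iff z).mp h0)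
  obtain ⟨χ, hχ⟩ := CommGroup.exists_apply_ne_one_of_hasEnoughRootsOfUnity
    (Abelianization G) ℂ hz1
  let h : G →* ℂˣ := χ.comp Abelianization.of
  have hz2 : h z ≠ 1 := hχ
  have : Finite h.range := Finite.of_surjective h.rangeRestrict h.rangeRestrict_surjective
  obtain ⟨c, hcg⟩ := IsCyclic.exists_generator (α := h.range)
  obtain ⟨y, hy⟩ := c.2
  have hyc : h.rangeRestrict y = c := Subtype.ext hy
  obtain ⟨s, hs⟩ := (IsPGroup.iff_orderOf.mp hp) y
  obtain ⟨t, ht⟩ := (IsPGroup.iff_orderOf.mp hp) z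
  have hco : orderOf c ∣ p ^ s := by
    rw [← hyc, ← hs]
    exact orderOf_map_dvd _ y
  obtain ⟨s', _, hs'⟩ := (Nat.dvd_prime_pow hpf.out).mp hco
  have hzo : orderOf (⟨z, hz⟩ : Subgroup.center G) = p ^ t := by
    rw [Subgroup.orderOf_mk, ht]
  rcases le_total s' t with hle | hle
  · -- an embedding of the range
    let z' : Subgroup.center G := (⟨z, hz⟩ : Subgroup.center G) ^ (p ^ (t - s'))
    have hz' : orderOf z' = orderOf c := by
      rw [hs']
      show orderOf ((⟨z, hz⟩ : Subgroup.center G) ^ (p ^ (t - s'))) = _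
      rw [orderOf_pow, hzo, Nat.gcd_eq_right (Nat.pow_dvd_pow p (Nat.sub_le t s')),
        Nat.pow_div (Nat.sub_le t s') hpf.out.pos]
      congr 1
      omega
    let g : h.range →* Subgroup.center G := monoidHomOfForallMemZpowers hcg hz'.dvd
    have hg : g c = z' := monoidHomOfForallMemZpowers_apply_gen hcg hz'.dvd
    have h1 := (all_hom hp hc H u hu huc hup (g.comp h.rangeRestrict)).1 z hz
    obtain ⟨j, hj⟩ := Subgroup.mem_zpowers_iff.mp (hcg (h.rangeRestrict z))
    have h2 : z' ^ j = 1 := by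
      rw [← hg, ← map_zpow, hj]
      exact h1
    have h3 : c ^ j = 1 := by
      rw [← orderOf_dvd_iff_zpow_eq_one, ← hz', orderOf_dvd_iff_zpow_eq_one]
      exact h2
    rw [hj] at h3
    exact hz2 (congrArg Subtype.val h3)
  · have hdvd : orderOf (⟨z, hz⟩ : Subgroup.center G) ∣ orderOf c := by
      rw [hzo, hs']
      exact Nat.pow_dvd_pow p hle
    let g : h.range →* Subgroup.center G := monoidHomOfForallMemZpowers hcg hdvd
    have hg : g c = ⟨z, hz⟩ := monoidHomOfForallMemZpowers_apply_gen hcg hdvd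
    obtain ⟨k, hk⟩ := (all_hom hp hc H u hu huc hup (g.comp h.rangeRestrict)).2 y
    have h1 : (g.comp h.rangeRestrict) y = ⟨z, hz⟩ := by
      show g (h.rangeRestrict y) = _
      rw [hyc, hg]
    rw [h1] at hk
    apply hzn
    have hk' : z = ⁅y, k⁆ := hk
    rw [hk']
    exact Subgroup.commutator_mem_commutator (Subgroup.mem_top y) (Subgroup.mem_top k)

end

end Pool.Agent.Helper832.CentAut
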