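import Mathlib
import Pool.Agent.Helper832.CentAut.Main

/-!
Co-Dedekindian finite `p`-groups.
-/

set_option autoImplicit false

namespace Pool.Agent.Helper832.CentAut

open Pool.Agent.Helper832.AutC

section

variable {G : Type} [Group G]

/-- `α` is a power automorphism: it maps every subgroup onto itself. -/
def IsPowerAut (α : G ≃* G) : Prop :=
  ∀ H : Subgroup G, H.map (α : G →* G) = H

/-- `G` is co-Dedekindian: every central automorphism is a power automorphism. -/
def CoDedekindian (G : Type) [Group G] : Prop :=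
  ∀ α : G ≃* G, IsCentralAut α → IsPowerAut α

lemma basic' [Finite G] (H : CoDedekindian G) (f : G →* Subgroup.center G)
    (hinj : ∀ z : G, z ∈ Subgroup.center G → (f z : G) = z⁻¹ → z = 1) :
    ∀ x, (f x : G) ∈ Subgroup.zpowers x := by
  obtain ⟨α, hα⟩ := exists_aut f hinj
  have hcent : IsCentralAut α := by
    intro x
    rw [hα, inv_mul_cancel_left]
    exact (f x).2
  intro x
  have h1 := H α hcent (Subgroup.zpowers x)
  have h2 : α x ∈ Subgroup.zpowers x := by
    rw [← h1]
    exact ⟨x, Subgroup.mem_zpowers x, rfl⟩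
  rw [hα] at h2
  have h3 := Subgroup.mul_mem _ (Subgroup.inv_mem _ (Subgroup.mem_zpowers x)) h2
  rw [inv_mul_cancel_left] at h3
  exact h3

lemma gen_of_prime [Finite G] {p : ℕ} [hpf : Fact p.Prime] {u w : G} (hu : orderOf u = p)
    (hw : w ∈ Subgroup.zpowers u) (hw1 : w ≠ 1) : u ∈ Subgroup.zpowers w := by
  have h1 : Subgroup.zpowers w ≤ Subgroup.zpowers u := by
    rw [Subgroup.zpowers_le]
    exact hw
  have h2 : orderOf w = p := by
    have h3 : orderOf w ∣ p := by
      rw [← hu]
      exact orderOf_dvd_of_mem_zpowers hw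
    rcases (Nat.dvd_prime hpf.out).mp h3 with h4 | h4
    · exact absurd (orderOf_eq_one_iff.mp h4) hw1
    · exact h4
  have h3 : Subgroup.zpowers w = Subgroup.zpowers u := by
    apply Subgroup.eq_of_le_of_card_ge h1
    rw [Nat.card_zpowers, Nat.card_zpowers, h2, hu]
  rw [h3]
  exact Subgroup.mem_zpowers u

/-- A homomorphism onto a central subgroup of order `p` which does not kill `x`. -/
lemma exists_to_prime [Finite G] {p : ℕ} [hpf : Fact p.Prime]
    (u : G) (huc : u ∈ Subgroup.center G) (hup : orderOf u = p) (x : G)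
    (hx : ¬ ∃ y : G, (Abelianization.of x : Abelianization G) = (Abelianization.of y) ^ p) :
    ∃ f : G →* Subgroup.center G, (∀ w, (f w : G) ∈ Subgroup.zpowers u) ∧ (f x : G) ≠ 1 := by
  classical
  let R : Subgroup (Abelianization G) := (powMonoidHom p : _ →* Abelianization G).range
  have hzR : (Abelianization.of x : Abelianization G) ∉ R := by
    rintro ⟨b, hb⟩
    obtain ⟨y, rfl⟩ := QuotientGroup.mk'_surjective _ b
    exact hx ⟨y, hb.symm⟩
  have : Finite (Abelianization G) := Quotient.finite _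
  rw [← CommGroup.forall_monoidHom_apply_eq_one_iff (M := ℂ) R] at hzR
  push Not at hzR
  obtain ⟨χ, hχ, hχz⟩ := hzR
  have : NeZero p := ⟨hpf.out.ne_zero⟩
  have hmem : ∀ b, χ b ∈ rootsOfUnity p ℂ := by
    intro b
    rw [mem_rootsOfUnity, ← map_pow]
    exact hχ _ ⟨b, rfl⟩
  let ψ : Abelianization G →* rootsOfUnity p ℂ := χ.codRestrict _ hmem
  let u' : Subgroup.center G := ⟨u, huc⟩
  have hu' : orderOf u' = p := by
    rw [← hup]
    exact Subgroup.orderOf_mk u huc
  have hcard : Nat.card (rootsOfUnity p ℂ) = Nat.card (Subgroup.zpowers u') := by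
    rw [HasEnoughRootsOfUnity.natCard_rootsOfUnity ℂ p, Nat.card_zpowers, hu']
  let e : rootsOfUnity p ℂ ≃* Subgroup.zpowers u' := mulEquivOfCyclicCardEq hcard
  let f : G →* Subgroup.center G :=
    (((Subgroup.zpowers u').subtype.comp e.toMonoidHom).comp ψ).comp Abelianization.of
  refine ⟨f, ?_, ?_⟩
  · intro w
    obtain ⟨j, hj⟩ := Subgroup.mem_zpowers_iff.mp (e (ψ (Abelianization.of w))).2
    refine Subgroup.mem_zpowers_iff.mpr ⟨j, ?_⟩
    have := congrArg (Subtype.val) hj
    simpa [f, u'] using this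
  · intro h1
    have h2 : e (ψ (Abelianization.of x)) = 1 := by
      apply Subtype.ext
      apply Subtype.ext
      exact h1
    have h3 : ψ (Abelianization.of x) = 1 := (MulEquiv.map_eq_one_iff e).mp h2
    exact hχz (congrArg Subtype.val h3)

lemma star [Finite G] {p : ℕ} [hpf : Fact p.Prime] (H : CoDedekindian G)
    (u : G) (hu : u ∈ commutator G) (huc : u ∈ Subgroup.center G) (hup : orderOf u = p) (x : G)
    (hx : ¬ ∃ y : G, (Abelianization.of x : Abelianization G) = (Abelianization.of y) ^ p) :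
    u ∈ Subgroup.zpowers x := by
  obtain ⟨f, hf1, hf2⟩ := exists_to_prime u huc hup x hx
  have h1 := basic' H f (by
    intro z _ hz
    have h1 : z⁻¹ ∈ commutator G := by
      rw [← hz]
      exact (Subgroup.zpowers_le.mpr hu) (hf1 z)
    have h2 : z ∈ commutator G := (Subgroup.inv_mem_iff _).mp h1
    have h3 := kills_commutator f h2
    rw [h3] at hz
    have h4 : z⁻¹ = 1 := hz.symm
    exact inv_eq_one.mp h4) x
  have h2 := gen_of_prime hup (hf1 x) hf2
  exact (Subgroup.zpowers_le.mpr h1) h2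

/-- In a cyclic `p`-group generated by `w`, an element of order `p` is a power of
`w ^ (p ^ i)`. -/
lemma bottom [Finite G] {p : ℕ} [hpf : Fact p.Prime] {u w : G} (hu : orderOf u = p) (i : ℕ)
    (hw : orderOf w = p ^ (i + 1)) (h : u ∈ Subgroup.zpowers w) :
    w ^ (p ^ i) ∈ Subgroup.zpowers u ∧ u ∈ Subgroup.zpowers (w ^ (p ^ i)) := by
  obtain ⟨s, hs⟩ := Subgroup.mem_zpowers_iff.mp h
  have h1 : w ^ (s * p) = 1 := by
    rw [zpow_mul, hs]
    rw [← hu]
    exact_mod_cast pow_orderOf_eq_one u
  rw [← orderOf_dvd_iff_zpow_eq_one, hw] at h1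
  have h2 : ((p : ℤ) ^ i) ∣ s := by
    have h6 : (p : ℤ) ^ i * p ∣ s * p := by
      have : (((p ^ (i + 1) : ℕ)) : ℤ) = (p : ℤ) ^ i * p := by
        push_cast
        rw [pow_succ]
      rw [← this]
      exact h1
    exact (mul_dvd_mul_iff_right (by exact_mod_cast hpf.out.ne_zero)).mp h6
  obtain ⟨s', hs'⟩ := h2
  have h3 : u ∈ Subgroup.zpowers (w ^ (p ^ i)) := by
    refine Subgroup.mem_zpowers_iff.mpr ⟨s', ?_⟩
    rw [← hs, hs', ← zpow_natCast, ← zpow_mul]
    congr 1
  refine ⟨?_, h3⟩
  have hord : orderOf (w ^ (p ^ i)) = p := by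
    rw [orderOf_pow, hw, Nat.gcd_eq_right (Nat.pow_dvd_pow p (Nat.le_succ i)),
      Nat.pow_div (Nat.le_succ i) hpf.out.pos]
    simp
  have hu1 : u ≠ 1 := by
    intro h0
    rw [h0, orderOf_one] at hu
    exact hpf.out.one_lt.ne hu
  exact gen_of_prime hord h3 hu1

lemma no_pair [Finite G] {p : ℕ} [hpf : Fact p.Prime] (hp : IsPGroup p G) (u : G)
    (hup : orderOf u = p)
    (hstar : ∀ x : G,
      (¬ ∃ y : G, (Abelianization.of x : Abelianization G) = (Abelianization.of y) ^ p) →
      u ∈ Subgroup.zpowers x) :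
    ∀ n : ℕ, ∀ w1 w2 : G, orderOf w1 + orderOf w2 ≤ n → Commute w1 w2 →
      (∀ a b : ℤ, (∃ y : G, (Abelianization.of (w1 ^ a * w2 ^ b) : Abelianization G) =
        (Abelianization.of y) ^ p) → (p : ℤ) ∣ a ∧ (p : ℤ) ∣ b) → False := by
  intro n
  induction n with
  | zero =>
    intro w1 w2 h _ _
    have := orderOf_pos w1
    omega
  | succ n ih =>
    have main : ∀ w1 w2 : G, orderOf w1 ≤ orderOf w2 → orderOf w1 + orderOf w2 ≤ n + 1 →
      Commute w1 w2 →
      (∀ a b : ℤ, (∃ y : G, (Abelianization.of (w1 ^ a * w2 ^ b) : Abelianization G) =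
        (Abelianization.of y) ^ p) → (p : ℤ) ∣ a ∧ (p : ℤ) ∣ b) → False := by
      intro w1 w2 hle hn hcomm hind
      have hone : ¬ (p : ℤ) ∣ 1 := by
        intro h0
        have := Int.eq_one_of_dvd_one (by positivity) h0
        have h1 := hpf.out.one_lt
        omega
      have hu1 : u ∈ Subgroup.zpowers w1 := by
        apply hstar
        intro h0
        exact hone (hind 1 0 (by simpa using h0)).1
      have hu2 : u ∈ Subgroup.zpowers w2 := by
        apply hstar
        intro h0
        exact hone (hind 0 1 (by simpa using h0)).2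
      obtain ⟨i, hi⟩ := (IsPGroup.iff_orderOf.mp hp) w1
      obtain ⟨j, hj⟩ := (IsPGroup.iff_orderOf.mp hp) w2
      have hpos : ∀ (w : G) (i : ℕ), orderOf w = p ^ i → u ∈ Subgroup.zpowers w → i ≠ 0 := by
        rintro w i hi hu h0
        rw [h0, pow_zero, orderOf_eq_one_iff] at hi
        rw [hi, Subgroup.zpowers_one_eq_bot, Subgroup.mem_bot] at hu
        rw [hu, orderOf_one] at hup
        exact hpf.out.one_lt.ne hup
      obtain ⟨i, rfl⟩ := Nat.exists_eq_succ_of_ne_zero (hpos w1 i hi hu1)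
      obtain ⟨j, rfl⟩ := Nat.exists_eq_succ_of_ne_zero (hpos w2 j hj hu2)
      have hij : i ≤ j := by
        rw [hi, hj] at hle
        have := (Nat.pow_le_pow_iff_right hpf.out.one_lt).mp hle
        omega
      have h1 := (bottom hup i hi hu1).1
      have h2 := (bottom hup j hj hu2).2
      have h3 : w1 ^ (p ^ i) ∈ Subgroup.zpowers (w2 ^ (p ^ j)) :=
        (Subgroup.zpowers_le.mpr h2) h1
      obtain ⟨t, ht⟩ := Subgroup.mem_zpowers_iff.mp h3
      let v : G := (w2 ^ (p ^ (j - i))) ^ (-t)
      have hcv : Commute w1 v := (hcomm.pow_right _).zpow_right _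
      have hv : v ^ (p ^ i) = (w1 ^ (p ^ i))⁻¹ := by
        show ((w2 ^ (p ^ (j - i))) ^ (-t)) ^ (p ^ i) = _
        rw [← zpow_natCast, ← zpow_mul, mul_comm, zpow_mul, zpow_natCast, ← pow_mul, ← pow_add,
          Nat.sub_add_cancel hij, zpow_neg, ht]
      have hlt : orderOf (w1 * v) < orderOf w1 := by
        have h4 : (w1 * v) ^ (p ^ i) = 1 := by
          rw [hcv.mul_pow, hv, mul_inv_cancel]
        have h5 : orderOf (w1 * v) ≤ p ^ i :=
          orderOf_le_of_pow_eq_one (pow_pos hpf.out.pos i) h4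
        rw [hi]
        exact lt_of_le_of_lt h5 (Nat.pow_lt_pow_right hpf.out.one_lt (Nat.lt_succ_self i))
      apply ih (w1 * v) w2 (by omega)
      · exact hcomm.mul_left (((Commute.refl w2).pow_left _).zpow_left _)
      · intro a b hab
        have h6 : (w1 * v) ^ a * w2 ^ b = w1 ^ a * w2 ^ (((p : ℤ) ^ (j - i)) * (-t) * a + b) := by
          rw [hcv.mul_zpow, mul_assoc, zpow_add]
          congr 2
          show ((w2 ^ (p ^ (j - i))) ^ (-t)) ^ a = _
          rw [← zpow_natCast, ← zpow_mul, ← zpow_mul]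
          congr 1
          push_cast
          ring
        rw [h6] at hab
        obtain ⟨h7, h8⟩ := hind _ _ hab
        refine ⟨h7, ?_⟩
        have h9 : (p : ℤ) ∣ ((p : ℤ) ^ (j - i)) * (-t) * a := Dvd.dvd.mul_left h7 _
        exact (dvd_add_right h9).mp h8
    intro w1 w2 hn hcomm hind
    rcases le_total (orderOf w1) (orderOf w2) with hle | hle
    · exact main w1 w2 hle hn hcomm hind
    · apply main w2 w1 hle (by omega) hcomm.symm
      intro a b hab
      rw [((hcomm.symm.zpow_left a).zpow_right b).eq] at hab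
      exact (hind b a hab).symm

end

end Pool.Agent.Helper832.CentAut
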