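import Mathlib
import Pool.Agent.Helper832.CentAut.Main

/-!
The criterion for equality of central and class-preserving automorphisms.
-/

set_option autoImplicit false

open scoped commutatorElement

namespace Pool.Agent.Helper832.CentAut

open Pool.Agent.Helper832.AutC

section

variable {G : Type} [Group G]

/-- `z` satisfies every divisibility relation that `x` satisfies modulo the centre. -/
def Admissible (x z : G) : Prop :=
  ∀ m n : ℕ, (∃ y : G, ∃ c ∈ Subgroup.center G, x ^ m = y ^ n * c) →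
    ∃ w ∈ Subgroup.center G, z ^ m = w ^ n

lemma class_two (hcl : commutator G ≤ Subgroup.center G) :
    ∀ a b c : G, ⁅⁅a, b⁆, c⁆ = 1 := by
  intro a b c
  have h : ⁅a, b⁆ ∈ Subgroup.center G :=
    hcl (Subgroup.commutator_mem_commutator (Subgroup.mem_top a) (Subgroup.mem_top b))
  rw [commutatorElement_eq_one_iff_mul_comm]
  exact ((Subgroup.mem_center_iff.mp h) c).symm

lemma comm_admissible (hc : ∀ a b c : G, ⁅⁅a, b⁆, c⁆ = 1) (x g : G) : Admissible x ⁅x, g⁆ := by
  rintro m n ⟨y, c, hcc, h⟩
  refine ⟨⁅y, g⁆, comm_center hc y g, ?_⟩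
  have h1 : pr hc (x ^ m) g = pr hc (y ^ n * c) g := by rw [h]
  have h2 : pr hc c g = 1 := by
    rw [pr_eq_one_iff, commutatorElement_eq_one_iff_mul_comm]
    exact ((Subgroup.mem_center_iff.mp hcc) g).symm
  have h3 : (pr hc x g) ^ m = (pr hc y g) ^ n := by
    have e1 : pr hc (x ^ m) g = (pr hc x g) ^ m := by
      rw [map_pow]; rfl
    have e2 : pr hc (y ^ n * c) g = (pr hc y g) ^ n * pr hc c g := by
      rw [map_mul, map_pow]; rfl
    rw [e1, e2, h2, mul_one] at h1
    exact h1
  have h4 := congrArg (Subtype.val) h3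
  simpa [pr_coe] using h4

lemma hom_admissible {f : G →* Subgroup.center G} (hf : ∀ z ∈ Subgroup.center G, f z = 1)
    (x : G) : Admissible x (f x : G) := by
  rintro m n ⟨y, c, hcc, h⟩
  refine ⟨(f y : G), (f y).2, ?_⟩
  have h1 : f (x ^ m) = f (y ^ n * c) := by rw [h]
  rw [map_pow, map_mul, map_pow, hf c hcc, mul_one] at h1
  have h2 := congrArg (Subtype.val) h1
  simpa using h2

/-- the quotient by the centre is commutative -/
@[reducible] def commQuot (hcl : commutator G ≤ Subgroup.center G) :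
    CommGroup (G ⧸ Subgroup.center G) :=
  { (inferInstance : Group (G ⧸ Subgroup.center G)) with
    mul_comm := by
      intro a b
      obtain ⟨a, rfl⟩ := QuotientGroup.mk'_surjective _ a
      obtain ⟨b, rfl⟩ := QuotientGroup.mk'_surjective _ b
      rw [← map_mul, ← map_mul]
      refine QuotientGroup.eq.mpr ?_
      have h1 : (a * b)⁻¹ * (b * a) = ⁅b⁻¹, a⁻¹⁆ := by
        simp only [commutatorElement_def]
        group
      rw [h1]
      exact hcl (Subgroup.commutator_mem_commutator (Subgroup.mem_top _) (Subgroup.mem_top _)) }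

lemma admissible_hom [Finite G] (hcl : commutator G ≤ Subgroup.center G) (x z : G)
    (hz : z ∈ Subgroup.center G) (h : Admissible x z) :
    ∃ f : G →* Subgroup.center G, f x = ⟨z, hz⟩ ∧ ∀ c ∈ Subgroup.center G, f c = 1 := by
  let A := G ⧸ Subgroup.center G
  letI : CommGroup A := commQuot hcl
  have : Finite A := Quotient.finite _
  let q : G →* A := QuotientGroup.mk' (Subgroup.center G)
  obtain ⟨f, hf⟩ := exists_hom (A := A) (Z := Subgroup.center G) (q x) ⟨z, hz⟩ (by
    rintro m n ⟨y, hy⟩
    obtain ⟨y, rfl⟩ := QuotientGroup.mk'_surjective _ y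
    have h1 : q (x ^ m) = q (y ^ n) := by
      rw [map_pow, map_pow]
      exact hy
    have h2 : (y ^ n)⁻¹ * x ^ m ∈ Subgroup.center G := QuotientGroup.eq.mp h1.symm
    obtain ⟨w, hw, e⟩ := h m n ⟨y, _, h2, by group⟩
    exact ⟨⟨w, hw⟩, Subtype.ext e⟩)
  refine ⟨f.comp q, hf, ?_⟩
  intro c hcc
  have : q c = 1 := (QuotientGroup.eq_one_iff c).mpr hcc
  show f (q c) = 1
  rw [this, map_one]

/-- Class-preserving automorphisms are central in class two. -/
lemma central_of_class (hc : ∀ a b c : G, ⁅⁅a, b⁆, c⁆ = 1) (α : G ≃* G)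
    (h : IsClassPreserving α) : IsCentralAut α := by
  intro x
  obtain ⟨g, hg⟩ := isConj_iff.mp (h x)
  rw [← hg, ← conj_form hc, inv_mul_cancel_left]
  exact comm_center hc _ _

/-- The homomorphism attached to a central automorphism. -/
def centHom (α : G ≃* G) (h : IsCentralAut α) : G →* Subgroup.center G :=
  MonoidHom.mk' (fun x => ⟨x⁻¹ * α x, h x⟩) (by
    intro a b
    apply Subtype.ext
    show (a * b)⁻¹ * α (a * b) = (a⁻¹ * α a) * (b⁻¹ * α b)
    have h1 := (Subgroup.mem_center_iff.mp (h a)) b⁻¹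
    rw [map_mul]
    calc (a * b)⁻¹ * (α a * α b) = (b⁻¹ * (a⁻¹ * α a)) * α b := by group
      _ = ((a⁻¹ * α a) * b⁻¹) * α b := by rw [h1]
      _ = (a⁻¹ * α a) * (b⁻¹ * α b) := by group)

theorem criterion [Finite G] {p : ℕ} [hpf : Fact p.Prime] (hp : IsPGroup p G)
    (hcl : commutator G ≤ Subgroup.center G) (hne : commutator G ≠ ⊥) :
    (∀ α : G ≃* G, IsCentralAut α ↔ IsClassPreserving α) ↔
      (Subgroup.center G = commutator G ∧
        ∀ x z : G, z ∈ Subgroup.center G → (Admissible x z ↔ ∃ g, z = ⁅x, g⁆)) := by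
  have hc := class_two hcl
  constructor
  · intro H
    have H' : ∀ α : G ≃* G, IsCentralAut α → IsClassPreserving α := fun α => (H α).mp
    obtain ⟨u, hu, hup⟩ : ∃ u ∈ commutator G, orderOf u = p := by
      have hp' : IsPGroup p (commutator G) := hp.to_subgroup _
      have hnt : Nontrivial (commutator G) := (Subgroup.nontrivial_iff_ne_bot _).mpr hne
      have hdvd : p ∣ Nat.card (commutator G) := by
        obtain ⟨n, hn⟩ := IsPGroup.iff_card.mp hp'
        have h1 : 1 < Nat.card (commutator G) := Finite.one_lt_card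
        rw [hn] at h1 ⊢
        rcases Nat.eq_zero_or_pos n with h0 | h0
        · rw [h0] at h1
          simp at h1
        · exact dvd_pow_self p (by omega)
      obtain ⟨u, hu⟩ := exists_prime_orderOf_dvd_card' p hdvd
      exact ⟨u.1, u.2, by rw [← hu, Subgroup.orderOf_coe]⟩
    have huc := hcl hu
    refine ⟨le_antisymm (center_le hp hc H' u hu huc hup) hcl, ?_⟩
    intro x z hz
    constructor
    · intro h
      obtain ⟨f, hf, _⟩ := admissible_hom hcl x z hz h
      obtain ⟨g, hg⟩ := (all_hom hp hc H' u hu huc hup f).2 x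
      rw [hf] at hg
      exact ⟨g, hg⟩
    · rintro ⟨g, rfl⟩
      exact comm_admissible hc x g
  · rintro ⟨hZ, hD⟩ α
    refine ⟨fun h x => ?_, central_of_class hc α⟩
    have h1 : ∀ z ∈ Subgroup.center G, centHom α h z = 1 := by
      intro z hz
      rw [hZ] at hz
      exact kills_commutator _ hz
    have h2 := hom_admissible h1 x
    obtain ⟨g, hg⟩ := (hD x _ (centHom α h x).2).mp h2
    have h3 : x⁻¹ * α x = ⁅x, g⁆ := hg
    have h4 : α x = x * ⁅x, g⁻¹⁻¹⁆ := by
      rw [inv_inv, ← h3]
      group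
    rw [h4, conj_form hc]
    exact isConj_iff.mpr ⟨g⁻¹, rfl⟩

end

end Pool.Agent.Helper832.CentAut
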