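import Mathlib
import Pool.Agent.Helper832.CentAut.CoDed
import Pool.Agent.Helper832.CentAut.Crit

/-!
Co-Dedekindian finite `p`-groups: the criterion.
-/

set_option autoImplicit false

open scoped commutatorElement

namespace Pool.Agent.Helper832.CentAut

open Pool.Agent.Helper832.AutC

section

variable {G : Type} [Group G]

lemma exists_u [Finite G] {p : ℕ} [hpf : Fact p.Prime] (hp : IsPGroup p G)
    (hne : commutator G ≠ ⊥) :
    ∃ u ∈ commutator G, u ∈ Subgroup.center G ∧ orderOf u = p := by
  have hp' : IsPGroup p (commutator G) := hp.to_subgroup _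
  have hnt : Nontrivial (commutator G) := (Subgroup.nontrivial_iff_ne_bot _).mpr hne
  have hdvd : p ∣ Nat.card (commutator G) := by
    obtain ⟨n, hn0, hn⟩ := hp'.nontrivial_iff_card.mp hnt
    rw [hn]
    exact dvd_pow_self _ (ne_of_gt hn0)
  have hC : IsPGroup p (ConjAct G) := hp.of_equiv ConjAct.toConjAct
  obtain ⟨b, hb, hb1⟩ := hC.exists_fixed_point_of_prime_dvd_card_of_fixed_point
    (commutator G) hdvd (a := 1) (fun g => smul_one g)
  have hbc : (b : G) ∈ Subgroup.center G := by
    rw [Subgroup.mem_center_iff]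
    intro g
    have h1 := hb (ConjAct.toConjAct g)
    have h2 := congrArg Subtype.val h1
    rw [ConjAct.Subgroup.val_conj_smul, ConjAct.smul_def, ConjAct.ofConjAct_toConjAct] at h2
    calc g * (b : G) = (g * (b : G) * g⁻¹) * g := by group
      _ = (b : G) * g := by rw [h2]
  have hb1' : (b : G) ≠ 1 := fun h => hb1 (Subtype.ext h.symm)
  obtain ⟨k, hk⟩ := (IsPGroup.iff_orderOf.mp hp) (b : G)
  have hk0 : k ≠ 0 := by
    rintro rfl
    rw [pow_zero, orderOf_eq_one_iff] at hk
    exact hb1' hk
  obtain ⟨l, rfl⟩ := Nat.exists_eq_succ_of_ne_zero hk0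
  refine ⟨(b : G) ^ (p ^ l), Subgroup.pow_mem _ b.2 _, Subgroup.pow_mem _ hbc _, ?_⟩
  rw [orderOf_pow, hk, Nat.gcd_eq_right (Nat.pow_dvd_pow p (Nat.le_succ l)),
    Nat.pow_div (Nat.le_succ l) hpf.out.pos]
  simp

/-- A non-commutative finite `p`-group has an element which is not a `p`-th power modulo the
derived subgroup and the centre. -/
lemma exists_y0 [Finite G] {p : ℕ} [hpf : Fact p.Prime] (hp : IsPGroup p G)
    (hne : commutator G ≠ ⊥) :
    ∃ y0 : G, ¬ ∃ y : G, ∃ c ∈ Subgroup.center G,
      (Abelianization.of y0 : Abelianization G) = (Abelianization.of y) ^ p *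
        Abelianization.of c := by
  let P := G ⧸ Subgroup.center G
  have : Finite P := Quotient.finite _
  have hpP : IsPGroup p P := hp.to_quotient _
  have hntP : Nontrivial P := by
    rw [QuotientGroup.nontrivial_iff]
    intro h0
    apply hne
    rw [eq_bot_iff, commutator_eq_closure, Subgroup.closure_le]
    rintro _ ⟨x, g, rfl⟩
    have hx : x ∈ Subgroup.center G := by
      rw [h0]
      exact Subgroup.mem_top x
    show ⁅x, g⁆ ∈ (⊥ : Subgroup G)
    rw [Subgroup.mem_bot, commutatorElement_eq_one_iff_mul_comm]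
    exact ((Subgroup.mem_center_iff.mp hx) g).symm
  have : Finite (Abelianization P) := Quotient.finite _
  have hpQ : IsPGroup p (Abelianization P) := hpP.to_quotient _
  have hnil : Group.IsNilpotent P := hpP.isNilpotent
  have hntQ : Nontrivial (Abelianization P) := by
    have h1 := Group.IsSolvable.commutator_lt_top_of_nontrivial P
    show Nontrivial (P ⧸ commutator P)
    rw [QuotientGroup.nontrivial_iff]
    exact h1.ne
  obtain ⟨b, hb⟩ : ∃ b : Abelianization P, ¬ ∃ t, b = t ^ p := by
    by_contra hcon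
    push Not at hcon
    have hsurj : Function.Surjective (powMonoidHom p : Abelianization P →* Abelianization P) := by
      intro b
      obtain ⟨t, ht⟩ := hcon b
      exact ⟨t, ht.symm⟩
    have hinj := Finite.injective_iff_surjective.mpr hsurj
    have hdvd : p ∣ Nat.card (Abelianization P) := by
      obtain ⟨n, hn0, hn⟩ := hpQ.nontrivial_iff_card.mp hntQ
      rw [hn]
      exact dvd_pow_self _ (ne_of_gt hn0)
    obtain ⟨t, ht⟩ := exists_prime_orderOf_dvd_card' p hdvd
    have h1 : t ^ p = 1 := by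
      rw [← ht]
      exact pow_orderOf_eq_one t
    have h2 : t = 1 := by
      apply hinj
      show t ^ p = 1 ^ p
      rw [h1, one_pow]
    rw [h2, orderOf_one] at ht
    exact hpf.out.one_lt.ne ht
  obtain ⟨b', rfl⟩ := QuotientGroup.mk'_surjective _ b
  obtain ⟨y0, rfl⟩ := QuotientGroup.mk'_surjective _ b'
  refine ⟨y0, ?_⟩
  rintro ⟨y, c, hcc, h⟩
  apply hb
  let q : G →* P := QuotientGroup.mk' (Subgroup.center G)
  have hqc : q c = 1 := (QuotientGroup.eq_one_iff c).mpr hcc
  have h1 := congrArg (Abelianization.lift ((Abelianization.of).comp q)) h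
  rw [map_mul, map_pow, Abelianization.lift_apply_of, Abelianization.lift_apply_of,
    Abelianization.lift_apply_of] at h1
  refine ⟨Abelianization.of (q y), ?_⟩
  have h2 : (Abelianization.of (q y0) : Abelianization P) =
      (Abelianization.of (q y)) ^ p * Abelianization.of (q c) := h1
  rw [hqc, map_one, mul_one] at h2
  exact h2

lemma center_frat [Finite G] {p : ℕ} [hpf : Fact p.Prime] (hp : IsPGroup p G)
    (hne : commutator G ≠ ⊥) (H : CoDedekindian G)
    (u : G) (hu : u ∈ commutator G) (huc : u ∈ Subgroup.center G) (hup : orderOf u = p)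
    (z : G) (hz : z ∈ Subgroup.center G) :
    ∃ y : G, (Abelianization.of z : Abelianization G) = (Abelianization.of y) ^ p := by
  by_contra hcon
  obtain ⟨y0, hy0⟩ := exists_y0 hp hne
  have hcomm : Commute z y0 := ((Subgroup.mem_center_iff.mp hz) y0).symm
  have hcop : ∀ b : ℤ, ¬ (p : ℤ) ∣ b → ∃ s t : ℤ, s * b + t * p = 1 := by
    intro b hb
    have h1 : IsCoprime b (p : ℤ) := by
      rw [Int.isCoprime_iff_gcd_eq_one, Int.gcd_comm]
      have h2 := (Nat.Prime.coprime_iff_not_dvd hpf.out (n := b.natAbs)).mpr (by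
        intro h0
        exact hb (Int.natCast_dvd.mpr h0))
      simpa [Int.gcd] using h2
    obtain ⟨s, t, h⟩ := h1
    exact ⟨s, t, h⟩
  apply no_pair hp u hup (star H u hu huc hup) _ z y0 le_rfl hcomm
  rintro a b ⟨y, hy⟩
  rw [map_mul, map_zpow, map_zpow] at hy
  have hb : (p : ℤ) ∣ b := by
    by_contra hb
    obtain ⟨s, t, hst⟩ := hcop b hb
    apply hy0
    refine ⟨y ^ s * y0 ^ t, z ^ (-(a * s)), Subgroup.zpow_mem _ hz _, ?_⟩
    have h1 : (Abelianization.of y0 : Abelianization G) ^ b =
        (Abelianization.of y) ^ p * (Abelianization.of z) ^ (-a) := by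
      rw [← hy, zpow_neg]
      rw [mul_comm ((Abelianization.of z : Abelianization G) ^ a), mul_assoc, mul_inv_cancel,
        mul_one]
    calc (Abelianization.of y0 : Abelianization G)
        = (Abelianization.of y0) ^ (s * b + t * p) := by rw [hst, zpow_one]
      _ = ((Abelianization.of y0) ^ b) ^ s * ((Abelianization.of y0) ^ t) ^ (p : ℤ) := by
          rw [zpow_add, mul_comm s b, zpow_mul, zpow_mul]
      _ = ((Abelianization.of y) ^ p * (Abelianization.of z) ^ (-a)) ^ s *
            ((Abelianization.of y0) ^ t) ^ (p : ℤ) := by rw [h1]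
      _ = _ := by
          rw [map_mul, map_zpow, map_zpow, map_zpow, mul_zpow, mul_pow, ← zpow_natCast,
            ← zpow_natCast, ← zpow_natCast, ← zpow_mul, ← zpow_mul, ← zpow_mul, ← zpow_mul,
            mul_comm (p : ℤ) s, neg_mul]
          rw [mul_assoc, mul_assoc,
            mul_comm ((Abelianization.of z : Abelianization G) ^ (-(a * s)))]
  refine ⟨?_, hb⟩
  by_contra ha
  obtain ⟨b', rfl⟩ := hb
  obtain ⟨s, t, hst⟩ := hcop a ha
  apply hcon
  refine ⟨(y * y0 ^ (-b')) ^ s * z ^ t, ?_⟩
  have h1 : (Abelianization.of z : Abelianization G) ^ a =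
      ((Abelianization.of y) * (Abelianization.of y0) ^ (-b')) ^ p := by
    rw [mul_pow, ← hy, ← zpow_natCast ((Abelianization.of y0 : Abelianization G) ^ (-b')),
      ← zpow_mul, mul_assoc, ← zpow_add]
    have : (p : ℤ) * b' + -b' * p = 0 := by ring
    rw [this, zpow_zero, mul_one]
  calc (Abelianization.of z : Abelianization G)
      = (Abelianization.of z) ^ (s * a + t * p) := by rw [hst, zpow_one]
    _ = ((Abelianization.of z) ^ a) ^ s * ((Abelianization.of z) ^ t) ^ (p : ℤ) := by
        rw [zpow_add, mul_comm s a, zpow_mul, zpow_mul]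
    _ = (((Abelianization.of y) * (Abelianization.of y0) ^ (-b')) ^ s) ^ p *
          ((Abelianization.of z) ^ t) ^ p := by
        have hcp : ∀ Y : Abelianization G, (Y ^ p) ^ s = (Y ^ s) ^ p := by
          intro Y
          rw [← zpow_natCast Y p, ← zpow_natCast (Y ^ s) p, ← zpow_mul, ← zpow_mul, mul_comm]
        rw [h1, zpow_natCast, hcp]
    _ = (((Abelianization.of y) * (Abelianization.of y0) ^ (-b')) ^ s *
          (Abelianization.of z) ^ t) ^ p := (mul_pow _ _ _).symm
    _ = _ := by
        rw [map_mul, map_zpow, map_zpow, map_mul, map_zpow]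

lemma all_hom' [Finite G] {p : ℕ} [hpf : Fact p.Prime] (hp : IsPGroup p G)
    (hne : commutator G ≠ ⊥) (H : CoDedekindian G)
    (u : G) (hu : u ∈ commutator G) (huc : u ∈ Subgroup.center G) (hup : orderOf u = p)
    (f : G →* Subgroup.center G) : ∀ x, (f x : G) ∈ Subgroup.zpowers x := by
  apply basic' H f
  intro z hz hfz
  have hz0 : f z = (⟨z, hz⟩ : Subgroup.center G)⁻¹ := Subtype.ext hfz
  have key : ∀ n : ℕ, ∃ w : Subgroup.center G, (⟨z, hz⟩ : Subgroup.center G) = w ^ (p ^ n) := by
    intro n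
    induction n with
    | zero => exact ⟨⟨z, hz⟩, by simp⟩
    | succ n ih =>
      obtain ⟨w, hw⟩ := ih
      obtain ⟨y, hy⟩ := center_frat hp hne H u hu huc hup (w : G) w.2
      have h1 : f (w : G) = (f y) ^ p := by
        have h2 := congrArg (Abelianization.lift f) hy
        rw [map_pow, Abelianization.lift_apply_of, Abelianization.lift_apply_of] at h2
        exact h2
      refine ⟨(f y)⁻¹, ?_⟩
      have h3 : z = (w : G) ^ (p ^ n) := by
        have := congrArg Subtype.val hw
        simpa using this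
      have h4 : f z = (f y) ^ (p ^ (n + 1)) := by
        rw [h3, map_pow, h1, ← pow_mul, pow_succ, mul_comm]
      rw [inv_pow, ← h4, hz0, inv_inv]
  obtain ⟨k, hk⟩ := IsPGroup.iff_card.mp hp
  obtain ⟨w, hw⟩ := key k
  have h1 : (w : G) ^ (p ^ k) = 1 := by
    rw [← hk]
    exact pow_card_eq_one'
  have h2 := congrArg Subtype.val hw
  rw [Subgroup.coe_pow, h1] at h2
  exact h2

lemma unique_order_p [Finite G] {p : ℕ} [hpf : Fact p.Prime] (hp : IsPGroup p G)
    (hne : commutator G ≠ ⊥) (H : CoDedekindian G)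
    (u : G) (hu : u ∈ commutator G) (huc : u ∈ Subgroup.center G) (hup : orderOf u = p)
    (v : G) (hv : v ∈ Subgroup.center G) (hvp : orderOf v = p) : v ∈ Subgroup.zpowers u := by
  obtain ⟨y0, hy0⟩ := exists_y0 hp hne
  have hy : ¬ ∃ y : G, (Abelianization.of y0 : Abelianization G) = (Abelianization.of y) ^ p := by
    rintro ⟨y, hy⟩
    exact hy0 ⟨y, 1, Subgroup.one_mem _, by rw [hy, map_one, mul_one]⟩
  have h1 := star H u hu huc hup y0 hy
  obtain ⟨f, hf1, hf2⟩ := exists_to_prime v hv hvp y0 hy
  have h2 := all_hom' hp hne H u hu huc hup f y0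
  have h3 := gen_of_prime hvp (hf1 y0) hf2
  have h4 : v ∈ Subgroup.zpowers y0 := (Subgroup.zpowers_le.mpr h2) h3
  obtain ⟨k, hk⟩ := (IsPGroup.iff_orderOf.mp hp) y0
  have hk0 : k ≠ 0 := by
    rintro rfl
    rw [pow_zero, orderOf_eq_one_iff] at hk
    rw [hk, Subgroup.zpowers_one_eq_bot, Subgroup.mem_bot] at h1
    rw [h1, orderOf_one] at hup
    exact hpf.out.one_lt.ne hup
  obtain ⟨i, rfl⟩ := Nat.exists_eq_succ_of_ne_zero hk0
  have h5 := (bottom hup i hk h1).1
  have h6 := (bottom hvp i hk h4).2
  exact (Subgroup.zpowers_le.mpr h5) h6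

/-- The centre of a non-commutative co-Dedekindian finite `p`-group is cyclic. -/
lemma center_cyclic [Finite G] {p : ℕ} [hpf : Fact p.Prime] (hp : IsPGroup p G)
    (hne : commutator G ≠ ⊥) (H : CoDedekindian G)
    (u : G) (hu : u ∈ commutator G) (huc : u ∈ Subgroup.center G) (hup : orderOf u = p) :
    IsCyclic (Subgroup.center G) := by
  obtain ⟨g, hg⟩ := Monoid.exists_orderOf_eq_exponent
    (Monoid.ExponentExists.of_finite (G := Subgroup.center G))
  have hexp : ∀ z : Subgroup.center G, z ^ orderOf g = 1 := by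
    intro z
    rw [hg]
    exact Monoid.pow_exponent_eq_one z
  have hpC : IsPGroup p (Subgroup.center G) := hp.to_subgroup _
  obtain ⟨s, hs⟩ := (IsPGroup.iff_orderOf.mp hpC) g
  have hs0 : s ≠ 0 := by
    rintro rfl
    have h1 := hexp ⟨u, huc⟩
    rw [hs, pow_zero, pow_one] at h1
    have h2 : u = 1 := congrArg Subtype.val h1
    rw [h2, orderOf_one] at hup
    exact hpf.out.one_lt.ne hup
  obtain ⟨l, rfl⟩ := Nat.exists_eq_succ_of_ne_zero hs0
  have hgG : orderOf (g : G) = p ^ (l + 1) := by
    rw [Subgroup.orderOf_coe, hs]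
  have hug : u ∈ Subgroup.zpowers (g : G) := by
    have h1 : orderOf ((g : G) ^ (p ^ l)) = p := by
      rw [orderOf_pow, hgG, Nat.gcd_eq_right (Nat.pow_dvd_pow p (Nat.le_succ l)),
        Nat.pow_div (Nat.le_succ l) hpf.out.pos]
      simp
    have h2 := unique_order_p hp hne H u hu huc hup _ (Subgroup.pow_mem _ g.2 (p ^ l)) h1
    have h3 : (g : G) ^ (p ^ l) ≠ 1 := by
      intro h0
      rw [h0, orderOf_one] at h1
      exact hpf.out.one_lt.ne h1
    have h4 := gen_of_prime hup h2 h3
    exact (Subgroup.zpowers_le.mpr (Subgroup.pow_mem _ (Subgroup.mem_zpowers _) _)) h4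
  have main : ∀ k : ℕ, ∀ z : Subgroup.center G, orderOf z = p ^ k → z ∈ Subgroup.zpowers g := by
    intro k
    induction k with
    | zero =>
      intro z hz
      rw [pow_zero, orderOf_eq_one_iff] at hz
      rw [hz]
      exact Subgroup.one_mem _
    | succ k ih =>
      intro z hz
      have h1 : orderOf (z ^ p) = p ^ k := by
        rw [orderOf_pow, hz, Nat.gcd_eq_right (dvd_pow_self p (Nat.succ_ne_zero k)), pow_succ,
          Nat.mul_div_cancel _ hpf.out.pos]
      obtain ⟨m, hm⟩ := Subgroup.mem_zpowers_iff.mp (ih _ h1)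
      have hpm : (p : ℤ) ∣ m := by
        have h2 : z ^ (p ^ (l + 1)) = 1 := by
          rw [← hs]
          exact hexp z
        have h3 : g ^ (m * ((p : ℤ) ^ l)) = 1 := by
          rw [zpow_mul, hm, ← Nat.cast_pow, zpow_natCast, ← pow_mul, ← pow_succ']
          exact h2
        rw [← orderOf_dvd_iff_zpow_eq_one, hs] at h3
        have h6 : (p : ℤ) * (p : ℤ) ^ l ∣ m * (p : ℤ) ^ l := by
          have : (((p ^ (l + 1) : ℕ)) : ℤ) = (p : ℤ) * (p : ℤ) ^ l := by
            push_cast
            rw [pow_succ']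
          rw [← this]
          exact h3
        exact (mul_dvd_mul_iff_right (pow_ne_zero _ (by exact_mod_cast hpf.out.ne_zero))).mp h6
      obtain ⟨m', rfl⟩ := hpm
      let v : Subgroup.center G := z * g ^ (-m')
      have hv : v ^ p = 1 := by
        show (z * g ^ (-m')) ^ p = 1
        rw [mul_pow, ← hm, ← zpow_natCast (g ^ (-m')) p, ← zpow_mul, ← zpow_add]
        have : (p : ℤ) * m' + -m' * p = 0 := by ring
        rw [this, zpow_zero]
      have hz' : z = v * g ^ m' := by
        show z = z * g ^ (-m') * g ^ m'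
        rw [mul_assoc, ← zpow_add, neg_add_cancel, zpow_zero, mul_one]
      have hvg : v ∈ Subgroup.zpowers g := by
        by_cases hv1 : v = 1
        · rw [hv1]
          exact Subgroup.one_mem _
        · have h2 : orderOf v = p := orderOf_eq_prime hv hv1
          have h3 : orderOf (v : G) = p := by rw [Subgroup.orderOf_coe, h2]
          have h4 := unique_order_p hp hne H u hu huc hup (v : G) v.2 h3
          have h5 : (v : G) ∈ Subgroup.zpowers (g : G) := (Subgroup.zpowers_le.mpr hug) h4
          obtain ⟨j, hj⟩ := Subgroup.mem_zpowers_iff.mp h5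
          refine Subgroup.mem_zpowers_iff.mpr ⟨j, ?_⟩
          apply Subtype.ext
          rw [Subgroup.coe_zpow]
          exact hj
      rw [hz']
      exact Subgroup.mul_mem _ hvg (Subgroup.zpow_mem _ (Subgroup.mem_zpowers g) _)
  refine ⟨⟨g, fun z => ?_⟩⟩
  obtain ⟨k, hk⟩ := (IsPGroup.iff_orderOf.mp hpC) z
  exact main k z hk

/-- The order of `x` modulo `G ^ n [G, G]`. -/
noncomputable def abOrder (x : G) (n : ℕ) : ℕ :=
  sInf {k : ℕ | 0 < k ∧ ∃ y : G, ∃ h ∈ commutator G, x ^ k = y ^ n * h}

lemma abOrder_spec [Finite G] (x : G) (n : ℕ) :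
    ∀ m : ℕ, (∃ y : G, ∃ h ∈ commutator G, x ^ m = y ^ n * h) ↔ abOrder x n ∣ m := by
  have hex : ∃ k : ℕ, 0 < k ∧
      ∀ m : ℕ, (∃ y : G, ∃ h ∈ commutator G, x ^ m = y ^ n * h) ↔ k ∣ m := by
    let A := Abelianization G
    have : Finite A := Quotient.finite _
    let q : G →* A := Abelianization.of
    let R : Subgroup A := (powMonoidHom n : A →* A).range
    let b : A ⧸ R := QuotientGroup.mk' R (q x)
    have : Finite (A ⧸ R) := Quotient.finite _
    refine ⟨orderOf b, orderOf_pos b, ?_⟩
    intro m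
    rw [orderOf_dvd_iff_pow_eq_one]
    have h1 : b ^ m = 1 ↔ (q x) ^ m ∈ R := by
      show (QuotientGroup.mk' R (q x)) ^ m = 1 ↔ _
      rw [← map_pow]
      exact QuotientGroup.eq_one_iff _
    rw [h1]
    constructor
    · rintro ⟨y, c, hcc, h⟩
      refine ⟨q y, ?_⟩
      show (q y) ^ n = (q x) ^ m
      have h2 : q c = 1 := (QuotientGroup.eq_one_iff c).mpr hcc
      rw [← map_pow, ← map_pow, h, map_mul, h2, mul_one]
    · rintro ⟨y, hy⟩
      obtain ⟨y, rfl⟩ := QuotientGroup.mk'_surjective _ y
      have h2 : q (y ^ n) = q (x ^ m) := by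
        rw [map_pow, map_pow]
        exact hy
      have h3 : (y ^ n)⁻¹ * x ^ m ∈ commutator G := QuotientGroup.eq.mp h2
      exact ⟨y, _, h3, by group⟩
  obtain ⟨k, hk, h⟩ := hex
  have e : abOrder x n = k := by
    have hmem : k ∈ {k : ℕ | 0 < k ∧ ∃ y : G, ∃ h ∈ commutator G, x ^ k = y ^ n * h} :=
      ⟨hk, (h k).mpr dvd_rfl⟩
    apply le_antisymm (Nat.sInf_le hmem)
    have h2 := Nat.sInf_mem (⟨k, hmem⟩ :
      {k : ℕ | 0 < k ∧ ∃ y : G, ∃ h ∈ commutator G, x ^ k = y ^ n * h}.Nonempty)
    exact Nat.le_of_dvd h2.1 ((h _).mp h2.2)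
  rw [e]
  exact h

/-- The criterion. -/
theorem coDed_iff [Finite G] {p : ℕ} [hpf : Fact p.Prime] (hp : IsPGroup p G)
    (hne : commutator G ≠ ⊥) :
    CoDedekindian G ↔
      (IsCyclic (Subgroup.center G) ∧
        ∀ x : G, ∀ z ∈ Subgroup.center G,
          orderOf z ∣ abOrder x (Nat.card (Subgroup.center G)) → z ∈ Subgroup.zpowers x) := by
  constructor
  · intro H
    obtain ⟨u, hu, huc, hup⟩ := exists_u hp hne
    have hcyc := center_cyclic hp hne H u hu huc hup
    refine ⟨hcyc, ?_⟩
    intro x z hz hord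
    have : Finite (Abelianization G) := Quotient.finite _
    obtain ⟨f, hf⟩ := exists_hom_cyclic (A := Abelianization G) (C := Subgroup.center G)
      (Abelianization.of x) ⟨z, hz⟩ (by
        rintro m ⟨y, hy⟩
        obtain ⟨y, rfl⟩ := QuotientGroup.mk'_surjective _ y
        have h2 : (Abelianization.of (y ^ (Nat.card (Subgroup.center G))) : Abelianization G) =
            Abelianization.of (x ^ m) := by
          rw [map_pow, map_pow]
          exact hy.symm
        have h3 : (y ^ (Nat.card (Subgroup.center G)))⁻¹ * x ^ m ∈ commutator G :=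
          QuotientGroup.eq.mp h2
        have h4 := (abOrder_spec x _ m).mp ⟨y, _, h3, by group⟩
        have h5 := hord.trans h4
        apply Subtype.ext
        show z ^ m = 1
        exact orderOf_dvd_iff_pow_eq_one.mp h5)
    have h6 := all_hom' hp hne H u hu huc hup (f.comp Abelianization.of) x
    have h7 : (f.comp Abelianization.of) x = ⟨z, hz⟩ := hf
    rw [h7] at h6
    exact h6
  · rintro ⟨_, hD⟩ α hα H
    have h1 : ∀ x : G, α x ∈ Subgroup.zpowers x := by
      intro x
      have h2 : orderOf (centHom α hα x : G) ∣ abOrder x (Nat.card (Subgroup.center G)) := by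
        apply orderOf_dvd_of_pow_eq_one
        obtain ⟨y, h, hh, e⟩ := (abOrder_spec x (Nat.card (Subgroup.center G)) _).mpr dvd_rfl
        have h3 := congrArg (centHom α hα) e
        rw [map_pow, map_mul, map_pow, kills_commutator _ hh, mul_one, pow_card_eq_one'] at h3
        have h4 := congrArg Subtype.val h3
        simpa using h4
      have h5 := hD x _ (centHom α hα x).2 h2
      have h6 : x⁻¹ * α x ∈ Subgroup.zpowers x := h5
      have h7 := Subgroup.mul_mem _ (Subgroup.mem_zpowers x) h6
      rwa [mul_inv_cancel_left] at h7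
    apply Subgroup.eq_of_le_of_card_ge
    · rintro _ ⟨x, hx, rfl⟩
      exact (Subgroup.zpowers_le.mpr hx) (h1 x)
    · apply le_of_eq
      exact Nat.card_congr (H.equivMapOfInjective (α : G →* G) α.injective).toEquiv

end

end Pool.Agent.Helper832.CentAut
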