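import Mathlib
import Pool.Agent.Helper832.CentAut.CoDedB
import Pool.Agent.Helper832.AutC.Burnside

/-!
Co-Dedekindian `p`-groups are not regular.
-/

set_option autoImplicit false

open scoped commutatorElement

namespace Pool.Agent.Helper832.CentAut

open Pool.Agent.Helper832.AutC

section

variable {G : Type} [Group G]

lemma rank_two [Finite G] {p : ℕ} [hpf : Fact p.Prime] (hp : IsPGroup p G)
    (hne : commutator G ≠ ⊥) (c : G) :
    ∃ b : G, ¬ ∃ (t : ℤ) (y : G), (Abelianization.of b : Abelianization G) =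
      (Abelianization.of c) ^ t * (Abelianization.of y) ^ p := by
  have h1 : Subgroup.zpowers c ≠ ⊤ := by
    intro h0
    apply hne
    rw [eq_bot_iff, commutator_eq_closure, Subgroup.closure_le]
    rintro _ ⟨x, g, rfl⟩
    show ⁅x, g⁆ ∈ (⊥ : Subgroup G)
    rw [Subgroup.mem_bot, commutatorElement_eq_one_iff_mul_comm]
    have hx : x ∈ Subgroup.zpowers c := by rw [h0]; exact Subgroup.mem_top x
    have hg : g ∈ Subgroup.zpowers c := by rw [h0]; exact Subgroup.mem_top g
    obtain ⟨i, rfl⟩ := Subgroup.mem_zpowers_iff.mp hx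
    obtain ⟨j, rfl⟩ := Subgroup.mem_zpowers_iff.mp hg
    exact (Commute.zpow_zpow_self c i j).eq
  obtain ⟨M, hM, hcM⟩ := (eq_top_or_exists_le_coatom (Subgroup.zpowers c)).resolve_left h1
  obtain ⟨hM1, hM2⟩ := coatom_facts hp M hM
  obtain ⟨b, hb⟩ : ∃ b, b ∉ M := by
    by_contra hcon
    push Not at hcon
    exact hM.1 (eq_top_iff.mpr (fun x _ => hcon x))
  refine ⟨b, ?_⟩
  rintro ⟨t, y, h⟩
  apply hb
  have h2 : (Abelianization.of (c ^ t * y ^ p) : Abelianization G) = Abelianization.of b := by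
    rw [map_mul, map_zpow, map_pow, h]
  have h3 : (c ^ t * y ^ p)⁻¹ * b ∈ commutator G := QuotientGroup.eq.mp h2
  have h4 : commutator G ≤ M := by
    rw [commutator_eq_closure, Subgroup.closure_le]
    rintro _ ⟨x, g, rfl⟩
    exact hM1 x g
  have h5 : b = (c ^ t * y ^ p) * ((c ^ t * y ^ p)⁻¹ * b) := by group
  rw [h5]
  apply M.mul_mem _ (h4 h3)
  exact M.mul_mem (M.zpow_mem (hcM (Subgroup.mem_zpowers c)) t) (hM2 y)

theorem not_coDed [Finite G] {p : ℕ} [hpf : Fact p.Prime] (hp : IsPGroup p G)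
    (hne : commutator G ≠ ⊥)
    (hS : ∀ (a b : G) (n : ℕ), a ^ (p ^ n) = b ^ (p ^ n) → (a⁻¹ * b) ^ (p ^ n) = 1) :
    ¬ CoDedekindian G := by
  classical
  intro H
  obtain ⟨u, hu, huc, hup⟩ := exists_u hp hne
  have hstar := star H u hu huc hup
  obtain ⟨y0, hy0⟩ := exists_y0 hp hne
  have hy0' : ¬ ∃ y : G, (Abelianization.of y0 : Abelianization G) =
      (Abelianization.of y) ^ p := by
    rintro ⟨y, hy⟩
    exact hy0 ⟨y, 1, Subgroup.one_mem _, by rw [hy, map_one, mul_one]⟩
  have hex : ∃ n : ℕ, ∃ c : G, (¬ ∃ y : G, (Abelianization.of c : Abelianization G) =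
      (Abelianization.of y) ^ p) ∧ orderOf c = n := ⟨_, y0, hy0', rfl⟩
  obtain ⟨c, hc, hcn⟩ := Nat.find_spec hex
  have hmin : ∀ x : G, (¬ ∃ y : G, (Abelianization.of x : Abelianization G) =
      (Abelianization.of y) ^ p) → orderOf c ≤ orderOf x := by
    intro x hx
    rw [hcn]
    exact Nat.find_min' hex ⟨x, hx, rfl⟩
  obtain ⟨b, hb⟩ := rank_two hp hne c
  have hbg : ¬ ∃ y : G, (Abelianization.of b : Abelianization G) =
      (Abelianization.of y) ^ p := by
    rintro ⟨y, hy⟩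
    exact hb ⟨0, y, by rw [zpow_zero, one_mul, hy]⟩
  have hu1 := hstar c hc
  have hu2 := hstar b hbg
  obtain ⟨i, hi⟩ := (IsPGroup.iff_orderOf.mp hp) c
  obtain ⟨j, hj⟩ := (IsPGroup.iff_orderOf.mp hp) b
  have hpos : ∀ (w : G) (i : ℕ), orderOf w = p ^ i → u ∈ Subgroup.zpowers w → i ≠ 0 := by
    rintro w i hi hu h0
    rw [h0, pow_zero, orderOf_eq_one_iff] at hi
    rw [hi, Subgroup.zpowers_one_eq_bot, Subgroup.mem_bot] at hu
    rw [hu, orderOf_one] at hup
    exact hpf.out.one_lt.ne hup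
  obtain ⟨i, rfl⟩ := Nat.exists_eq_succ_of_ne_zero (hpos c i hi hu1)
  obtain ⟨j, rfl⟩ := Nat.exists_eq_succ_of_ne_zero (hpos b j hj hu2)
  have hij : i ≤ j := by
    have hle := hmin b hbg
    rw [hi, hj] at hle
    have := (Nat.pow_le_pow_iff_right hpf.out.one_lt).mp hle
    omega
  have h1 := (bottom hup i hi hu1).1
  have h2 := (bottom hup j hj hu2).2
  have h3 : c ^ (p ^ i) ∈ Subgroup.zpowers (b ^ (p ^ j)) := (Subgroup.zpowers_le.mpr h2) h1
  obtain ⟨t, ht⟩ := Subgroup.mem_zpowers_iff.mp h3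
  let b' : G := (b ^ (p ^ (j - i))) ^ t
  have hb' : c ^ (p ^ i) = b' ^ (p ^ i) := by
    show _ = ((b ^ (p ^ (j - i))) ^ t) ^ (p ^ i)
    rw [← ht, ← zpow_natCast ((b ^ (p ^ (j - i))) ^ t), ← zpow_mul, mul_comm, zpow_mul,
      zpow_natCast, ← pow_mul, ← pow_add, Nat.sub_add_cancel hij]
  have h4 := hS c b' i hb'
  have h5 : orderOf (c⁻¹ * b') < orderOf c := by
    have h6 : orderOf (c⁻¹ * b') ≤ p ^ i :=
      orderOf_le_of_pow_eq_one (pow_pos hpf.out.pos i) h4
    rw [hi]
    exact lt_of_le_of_lt h6 (Nat.pow_lt_pow_right hpf.out.one_lt (Nat.lt_succ_self i))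
  have h6 : ∃ y : G, (Abelianization.of (c⁻¹ * b') : Abelianization G) =
      (Abelianization.of y) ^ p := by
    by_contra hcon
    exact absurd (hmin _ hcon) (by omega)
  obtain ⟨y, hy⟩ := h6
  have h7 : (Abelianization.of b' : Abelianization G) =
      Abelianization.of c * (Abelianization.of y) ^ p := by
    rw [← hy, map_mul, map_inv, mul_inv_cancel_left]
  rcases Nat.lt_or_ge i j with hlt | hge
  · apply hc
    refine ⟨(b ^ (p ^ (j - i - 1))) ^ t * y⁻¹, ?_⟩
    have h8 : b' = ((b ^ (p ^ (j - i - 1))) ^ t) ^ p := by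
      show (b ^ (p ^ (j - i))) ^ t = _
      rw [← zpow_natCast ((b ^ (p ^ (j - i - 1))) ^ t) p, ← zpow_mul, mul_comm, zpow_mul,
        zpow_natCast, ← pow_mul, ← pow_succ, Nat.sub_add_cancel (by omega)]
    have h9 : (Abelianization.of c : Abelianization G) =
        Abelianization.of b' * ((Abelianization.of y) ^ p)⁻¹ := by
      rw [h7, mul_inv_cancel_right]
    rw [h9, h8, map_pow, map_mul, map_inv, mul_pow, inv_pow]
  · have hji : j = i := le_antisymm hge hij
    subst hji
    have hpt : ¬ (p : ℤ) ∣ t := by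
      rintro ⟨t', rfl⟩
      have h8 : c ^ (p ^ j) = 1 := by
        rw [← ht, zpow_mul, zpow_natCast, ← pow_mul, ← pow_succ, ← hj, pow_orderOf_eq_one,
          one_zpow]
      have h9 := orderOf_dvd_of_pow_eq_one h8
      rw [hi] at h9
      have := (Nat.pow_dvd_pow_iff_le_right hpf.out.one_lt).mp h9
      omega
    have hcop : IsCoprime t (p : ℤ) := by
      rw [Int.isCoprime_iff_gcd_eq_one, Int.gcd_comm]
      have h2 := (Nat.Prime.coprime_iff_not_dvd hpf.out (n := t.natAbs)).mpr (by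
        intro h0
        exact hpt (Int.natCast_dvd.mpr h0))
      simpa [Int.gcd] using h2
    obtain ⟨s, r, hst⟩ := hcop
    have h8 : b' = b ^ t := by
      show (b ^ (p ^ (j - j))) ^ t = _
      rw [Nat.sub_self, pow_zero, pow_one]
    rw [h8, map_zpow] at h7
    apply hb
    refine ⟨s, y ^ s * b ^ r, ?_⟩
    have hcp : ∀ Y : Abelianization G, (Y ^ p) ^ s = (Y ^ s) ^ p := by
      intro Y
      rw [← zpow_natCast Y p, ← zpow_natCast (Y ^ s) p, ← zpow_mul, ← zpow_mul, mul_comm]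
    calc (Abelianization.of b : Abelianization G)
        = (Abelianization.of b) ^ (s * t + r * p) := by rw [hst, zpow_one]
      _ = ((Abelianization.of b) ^ t) ^ s * ((Abelianization.of b) ^ r) ^ (p : ℤ) := by
          rw [zpow_add, mul_comm s t, zpow_mul, zpow_mul]
      _ = (Abelianization.of c * (Abelianization.of y) ^ p) ^ s *
            ((Abelianization.of b) ^ r) ^ p := by rw [h7, zpow_natCast]
      _ = (Abelianization.of c) ^ s * (((Abelianization.of y) ^ s) ^ p *
            ((Abelianization.of b) ^ r) ^ p) := by rw [mul_zpow, hcp, mul_assoc]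
      _ = (Abelianization.of c) ^ s * ((Abelianization.of y) ^ s *
            (Abelianization.of b) ^ r) ^ p := by rw [mul_pow]
      _ = _ := by rw [map_mul, map_zpow, map_zpow]

end

end Pool.Agent.Helper832.CentAut
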