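import Mathlib
import Pool.Agent.Helper832.CentAut.Reg

/-!
Co-Dedekindian commutative `p`-groups are cyclic.
-/

set_option autoImplicit false

open scoped commutatorElement

namespace Pool.Agent.Helper832.CentAut

open Pool.Agent.Helper832.AutC

section

variable {G : Type} [Group G]

lemma power_of_pointwise [Finite G] (α : G ≃* G) (h : ∀ x, α x ∈ Subgroup.zpowers x) :
    IsPowerAut α := by
  intro H
  apply Subgroup.eq_of_le_of_card_ge
  · rintro _ ⟨x, hx, rfl⟩
    exact (Subgroup.zpowers_le.mpr hx) (h x)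
  · apply le_of_eq
    exact Nat.card_congr (H.equivMapOfInjective (α : G →* G) α.injective).toEquiv

lemma coDed_of_cyclic [Finite G] (hG : IsCyclic G) : CoDedekindian G := by
  intro α _
  apply power_of_pointwise
  intro x
  obtain ⟨g, hg⟩ := hG.exists_generator
  obtain ⟨i, rfl⟩ := Subgroup.mem_zpowers_iff.mp (hg x)
  obtain ⟨k, hk⟩ := Subgroup.mem_zpowers_iff.mp (hg (α g))
  refine Subgroup.mem_zpowers_iff.mpr ⟨k, ?_⟩
  rw [map_zpow, ← hk, ← zpow_mul, ← zpow_mul, mul_comm]

lemma exists_to_prime2 [Finite G] {p : ℕ} [hpf : Fact p.Prime]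
    (u : G) (huc : u ∈ Subgroup.center G) (hup : orderOf u = p) (x : G)
    (hx : ¬ ∃ (t : ℤ) (y : G), (Abelianization.of x : Abelianization G) =
      (Abelianization.of u) ^ t * (Abelianization.of y) ^ p) :
    ∃ f : G →* Subgroup.center G, (∀ w, (f w : G) ∈ Subgroup.zpowers u) ∧ (f x : G) ≠ 1 ∧
      f u = 1 := by
  classical
  let R : Subgroup (Abelianization G) :=
    Subgroup.zpowers (Abelianization.of u) ⊔ (powMonoidHom p : _ →* Abelianization G).range
  have hzR : (Abelianization.of x : Abelianization G) ∉ R := by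
    intro h0
    obtain ⟨a, ha, b, ⟨b', hb⟩, hab⟩ := Subgroup.mem_sup.mp h0
    obtain ⟨t, rfl⟩ := Subgroup.mem_zpowers_iff.mp ha
    obtain ⟨y, rfl⟩ := QuotientGroup.mk'_surjective _ b'
    exact hx ⟨t, y, by rw [← hab, ← hb]; rfl⟩
  have : Finite (Abelianization G) := Quotient.finite _
  rw [← CommGroup.forall_monoidHom_apply_eq_one_iff (M := ℂ) R] at hzR
  push Not at hzR
  obtain ⟨χ, hχ, hχz⟩ := hzR
  have : NeZero p := ⟨hpf.out.ne_zero⟩
  have hmem : ∀ b, χ b ∈ rootsOfUnity p ℂ := by
    intro b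
    rw [mem_rootsOfUnity, ← map_pow]
    exact hχ _ (Subgroup.mem_sup_right ⟨b, rfl⟩)
  let ψ : Abelianization G →* rootsOfUnity p ℂ := χ.codRestrict _ hmem
  let u' : Subgroup.center G := ⟨u, huc⟩
  have hu' : orderOf u' = p := by
    rw [← hup]
    exact Subgroup.orderOf_mk u huc
  have hcard : Nat.card (rootsOfUnity p ℂ) = Nat.card (Subgroup.zpowers u') := by
    rw [HasEnoughRootsOfUnity.natCard_rootsOfUnity ℂ p, Nat.card_zpowers, hu']
  let e : rootsOfUnity p ℂ ≃* Subgroup.zpowers u' := mulEquivOfCyclicCardEq hcard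
  let f : G →* Subgroup.center G :=
    (((Subgroup.zpowers u').subtype.comp e.toMonoidHom).comp ψ).comp Abelianization.of
  refine ⟨f, ?_, ?_, ?_⟩
  · intro w
    obtain ⟨j, hj⟩ := Subgroup.mem_zpowers_iff.mp (e (ψ (Abelianization.of w))).2
    refine Subgroup.mem_zpowers_iff.mpr ⟨j, ?_⟩
    have := congrArg (Subtype.val) hj
    simpa [f, u'] using this
  · intro h1
    have h2 : e (ψ (Abelianization.of x)) = 1 := by
      apply Subtype.ext
      apply Subtype.ext
      exact h1
    have h3 : ψ (Abelianization.of x) = 1 := (MulEquiv.map_eq_one_iff e).mp h2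
    exact hχz (congrArg Subtype.val h3)
  · have h3 : ψ (Abelianization.of u) = 1 :=
      Subtype.ext (hχ _ (Subgroup.mem_sup_left (Subgroup.mem_zpowers _)))
    show ((Subgroup.zpowers u').subtype (e (ψ (Abelianization.of u)))) = 1
    rw [h3, map_one, map_one]

lemma cyclic_of_unique [Finite G] {p : ℕ} [hpf : Fact p.Prime] (hp : IsPGroup p G)
    (u : G) (huc : u ∈ Subgroup.center G) (hup : orderOf u = p)
    (huniq : ∀ v ∈ Subgroup.center G, orderOf v = p → v ∈ Subgroup.zpowers u) :
    IsCyclic (Subgroup.center G) := by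
  obtain ⟨g, hg⟩ := Monoid.exists_orderOf_eq_exponent
    (Monoid.ExponentExists.of_finite (G := Subgroup.center G))
  have hexp : ∀ z : Subgroup.center G, z ^ orderOf g = 1 := by
    intro z
    rw [hg]
    exact Monoid.pow_exponent_eq_one z
  have hpC : IsPGroup p (Subgroup.center G) := hp.to_subgroup _
  obtain ⟨s, hs⟩ := (IsPGroup.iff_orderOf.mp hpC) g
  have hs0 : s ≠ 0 := by
    rintro rfl
    have h1 := hexp ⟨u, huc⟩
    rw [hs, pow_zero, pow_one] at h1
    have h2 : u = 1 := congrArg Subtype.val h1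
    rw [h2, orderOf_one] at hup
    exact hpf.out.one_lt.ne hup
  obtain ⟨l, rfl⟩ := Nat.exists_eq_succ_of_ne_zero hs0
  have hgG : orderOf (g : G) = p ^ (l + 1) := by
    rw [Subgroup.orderOf_coe, hs]
  have hug : u ∈ Subgroup.zpowers (g : G) := by
    have h1 : orderOf ((g : G) ^ (p ^ l)) = p := by
      rw [orderOf_pow, hgG, Nat.gcd_eq_right (Nat.pow_dvd_pow p (Nat.le_succ l)),
        Nat.pow_div (Nat.le_succ l) hpf.out.pos]
      simp
    have h2 := huniq _ (Subgroup.pow_mem _ g.2 (p ^ l)) h1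
    have h3 : (g : G) ^ (p ^ l) ≠ 1 := by
      intro h0
      rw [h0, orderOf_one] at h1
      exact hpf.out.one_lt.ne h1
    have h4 := gen_of_prime hup h2 h3
    exact (Subgroup.zpowers_le.mpr (Subgroup.pow_mem _ (Subgroup.mem_zpowers _) _)) h4
  have main : ∀ k : ℕ, ∀ z : Subgroup.center G, orderOf z = p ^ k → z ∈ Subgroup.zpowers g := by
    intro k
    induction k with
    | zero =>
      intro z hz
      rw [pow_zero, orderOf_eq_one_iff] at hz
      rw [hz]
      exact Subgroup.one_mem _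
    | succ k ih =>
      intro z hz
      have h1 : orderOf (z ^ p) = p ^ k := by
        rw [orderOf_pow, hz, Nat.gcd_eq_right (dvd_pow_self p (Nat.succ_ne_zero k)), pow_succ,
          Nat.mul_div_cancel _ hpf.out.pos]
      obtain ⟨m, hm⟩ := Subgroup.mem_zpowers_iff.mp (ih _ h1)
      have hpm : (p : ℤ) ∣ m := by
        have h2 : z ^ (p ^ (l + 1)) = 1 := by
          rw [← hs]
          exact hexp z
        have h3 : g ^ (m * ((p : ℤ) ^ l)) = 1 := by
          rw [zpow_mul, hm, ← Nat.cast_pow, zpow_natCast, ← pow_mul, ← pow_succ']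
          exact h2
        rw [← orderOf_dvd_iff_zpow_eq_one, hs] at h3
        have h6 : (p : ℤ) * (p : ℤ) ^ l ∣ m * (p : ℤ) ^ l := by
          have : (((p ^ (l + 1) : ℕ)) : ℤ) = (p : ℤ) * (p : ℤ) ^ l := by
            push_cast
            rw [pow_succ']
          rw [← this]
          exact h3
        exact (mul_dvd_mul_iff_right (pow_ne_zero _ (by exact_mod_cast hpf.out.ne_zero))).mp h6
      obtain ⟨m', rfl⟩ := hpm
      let v : Subgroup.center G := z * g ^ (-m')
      have hv : v ^ p = 1 := by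
        show (z * g ^ (-m')) ^ p = 1
        rw [mul_pow, ← hm, ← zpow_natCast (g ^ (-m')) p, ← zpow_mul, ← zpow_add]
        have : (p : ℤ) * m' + -m' * p = 0 := by ring
        rw [this, zpow_zero]
      have hz' : z = v * g ^ m' := by
        show z = z * g ^ (-m') * g ^ m'
        rw [mul_assoc, ← zpow_add, neg_add_cancel, zpow_zero, mul_one]
      have hvg : v ∈ Subgroup.zpowers g := by
        by_cases hv1 : v = 1
        · rw [hv1]
          exact Subgroup.one_mem _
        · have h2 : orderOf v = p := orderOf_eq_prime hv hv1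
          have h3 : orderOf (v : G) = p := by rw [Subgroup.orderOf_coe, h2]
          have h4 := huniq (v : G) v.2 h3
          have h5 : (v : G) ∈ Subgroup.zpowers (g : G) := (Subgroup.zpowers_le.mpr hug) h4
          obtain ⟨j, hj⟩ := Subgroup.mem_zpowers_iff.mp h5
          refine Subgroup.mem_zpowers_iff.mpr ⟨j, ?_⟩
          apply Subtype.ext
          rw [Subgroup.coe_zpow]
          exact hj
      rw [hz']
      exact Subgroup.mul_mem _ hvg (Subgroup.zpow_mem _ (Subgroup.mem_zpowers g) _)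
  refine ⟨⟨g, fun z => ?_⟩⟩
  obtain ⟨k, hk⟩ := (IsPGroup.iff_orderOf.mp hpC) z
  exact main k z hk

/-- An element outside a maximal subgroup containing `u` satisfies the hypothesis of
`exists_to_prime2`. -/
lemma outside [Finite G] {p : ℕ} [hpf : Fact p.Prime] (hp : IsPGroup p G) (u x : G)
    (M : Subgroup G) (hM : IsCoatom M) (hu : u ∈ M) (hx : x ∉ M) :
    ¬ ∃ (t : ℤ) (y : G), (Abelianization.of x : Abelianization G) =
      (Abelianization.of u) ^ t * (Abelianization.of y) ^ p := by
  obtain ⟨hM1, hM2⟩ := coatom_facts hp M hM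
  rintro ⟨t, y, h⟩
  apply hx
  have h2 : (Abelianization.of (u ^ t * y ^ p) : Abelianization G) = Abelianization.of x := by
    rw [map_mul, map_zpow, map_pow, h]
  have h3 : (u ^ t * y ^ p)⁻¹ * x ∈ commutator G := QuotientGroup.eq.mp h2
  have h4 : commutator G ≤ M := by
    rw [commutator_eq_closure, Subgroup.closure_le]
    rintro _ ⟨x, g, rfl⟩
    exact hM1 x g
  have h5 : x = (u ^ t * y ^ p) * ((u ^ t * y ^ p)⁻¹ * x) := by group
  rw [h5]
  apply M.mul_mem _ (h4 h3)
  exact M.mul_mem (M.zpow_mem hu t) (hM2 y)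

theorem cyclic_of_coDed [Finite G] {p : ℕ} [hpf : Fact p.Prime] (hp : IsPGroup p G)
    (hab : ∀ a b : G, a * b = b * a) (H : CoDedekindian G) : IsCyclic G := by
  have hcen : Subgroup.center G = ⊤ := by
    rw [eq_top_iff]
    intro x _
    rw [Subgroup.mem_center_iff]
    exact fun g => hab g x
  by_contra hcyc
  have hz : ∀ u : G, Subgroup.zpowers u ≠ ⊤ := by
    intro u h0
    exact hcyc (isCyclic_iff_exists_zpowers_eq_top.mpr ⟨u, h0⟩)
  have key : ∀ u x : G, orderOf u = p → ∀ M : Subgroup G, IsCoatom M → u ∈ M → x ∉ M →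
      u ∈ Subgroup.zpowers x := by
    intro u x hup M hM huM hxM
    have huc : u ∈ Subgroup.center G := by rw [hcen]; exact Subgroup.mem_top u
    obtain ⟨f, hf1, hf2, hf3⟩ := exists_to_prime2 u huc hup x (outside hp u x M hM huM hxM)
    have h1 := basic' H f (by
      intro z _ hz
      have h1 : z⁻¹ ∈ Subgroup.zpowers u := by
        rw [← hz]
        exact hf1 z
      have h2 : z ∈ Subgroup.zpowers u := (Subgroup.inv_mem_iff _).mp h1
      obtain ⟨j, rfl⟩ := Subgroup.mem_zpowers_iff.mp h2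
      rw [map_zpow, hf3, one_zpow] at hz
      exact inv_eq_one.mp hz.symm) x
    have h2 := gen_of_prime hup (hf1 x) hf2
    exact (Subgroup.zpowers_le.mpr h1) h2
  -- an element of order `p`
  have hnt : Nontrivial G := by
    by_contra h0
    rw [not_nontrivial_iff_subsingleton] at h0
    exact hcyc inferInstance
  have hdvd : p ∣ Nat.card G := by
    obtain ⟨n, hn0, hn⟩ := hp.nontrivial_iff_card.mp hnt
    rw [hn]
    exact dvd_pow_self _ (ne_of_gt hn0)
  obtain ⟨u, hup⟩ := exists_prime_orderOf_dvd_card' (G := G) p hdvd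
  have huc : u ∈ Subgroup.center G := by rw [hcen]; exact Subgroup.mem_top u
  have hC := cyclic_of_unique hp u huc hup (by
    intro v _ hvp
    obtain ⟨M, hM, huM⟩ := (eq_top_or_exists_le_coatom (Subgroup.zpowers u)).resolve_left (hz u)
    obtain ⟨N, hN, hvN⟩ := (eq_top_or_exists_le_coatom (Subgroup.zpowers v)).resolve_left (hz v)
    obtain ⟨x, hxM, hxN⟩ : ∃ x, x ∉ M ∧ x ∉ N := by
      obtain ⟨a, ha⟩ : ∃ a, a ∉ M := by
        by_contra hcon
        push Not at hcon
        exact hM.1 (eq_top_iff.mpr (fun x _ => hcon x))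
      obtain ⟨b, hb⟩ : ∃ b, b ∉ N := by
        by_contra hcon
        push Not at hcon
        exact hN.1 (eq_top_iff.mpr (fun x _ => hcon x))
      by_cases h1 : a ∈ N
      · by_cases h2 : b ∈ M
        · refine ⟨a * b, ?_, ?_⟩
          · intro h3
            exact ha ((Subgroup.mul_mem_cancel_right M h2).mp h3)
          · intro h3
            exact hb ((Subgroup.mul_mem_cancel_left N h1).mp h3)
        · exact ⟨b, h2, hb⟩
      · exact ⟨a, ha, h1⟩
    have h1 := key u x hup M hM (huM (Subgroup.mem_zpowers u)) hxM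
    have h4 := key v x hvp N hN (hvN (Subgroup.mem_zpowers v)) hxN
    obtain ⟨k, hk⟩ := (IsPGroup.iff_orderOf.mp hp) x
    have hk0 : k ≠ 0 := by
      rintro rfl
      rw [pow_zero, orderOf_eq_one_iff] at hk
      rw [hk, Subgroup.zpowers_one_eq_bot, Subgroup.mem_bot] at h1
      rw [h1, orderOf_one] at hup
      exact hpf.out.one_lt.ne hup
    obtain ⟨i, rfl⟩ := Nat.exists_eq_succ_of_ne_zero hk0
    have h5 := (bottom hup i hk h1).1
    have h6 := (bottom hvp i hk h4).2
    exact (Subgroup.zpowers_le.mpr h5) h6)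
  apply hcyc
  obtain ⟨g, hg⟩ := hC.exists_generator
  refine ⟨⟨(g : G), fun x => ?_⟩⟩
  have hx : x ∈ Subgroup.center G := by rw [hcen]; exact Subgroup.mem_top x
  obtain ⟨j, hj⟩ := Subgroup.mem_zpowers_iff.mp (hg ⟨x, hx⟩)
  refine Subgroup.mem_zpowers_iff.mpr ⟨j, ?_⟩
  have := congrArg Subtype.val hj
  rwa [Subgroup.coe_zpow] at this

/-- The theorem. -/
theorem coDed_iff_cyclic [Finite G] {p : ℕ} [hpf : Fact p.Prime] (hp : IsPGroup p G)
    (hS : ∀ (a b : G) (n : ℕ), a ^ (p ^ n) = b ^ (p ^ n) → (a⁻¹ * b) ^ (p ^ n) = 1) :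
    CoDedekindian G ↔ IsCyclic G := by
  refine ⟨fun H => ?_, coDed_of_cyclic⟩
  by_cases hne : commutator G = ⊥
  · apply cyclic_of_coDed hp _ H
    intro a b
    have h1 : ⁅a, b⁆ ∈ commutator G :=
      Subgroup.commutator_mem_commutator (Subgroup.mem_top a) (Subgroup.mem_top b)
    rw [hne, Subgroup.mem_bot, commutatorElement_eq_one_iff_mul_comm] at h1
    exact h1
  · exact absurd H (not_coDed hp hne hS)

end

end Pool.Agent.Helper832.CentAut
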