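import Mathlib
import Pool.Agent.Helper832.CentAut.Crit

/-!
Class sizes in terms of the power structure.
-/

set_option autoImplicit false

open scoped commutatorElement

namespace Pool.Agent.Helper832.CentAut

open Pool.Agent.Helper832.AutC

section

variable {G : Type} [Group G]

/-- The least `k ≥ 1` such that `x ^ k` is an `n`-th power modulo the centre. -/
noncomputable def relOrder (x : G) (n : ℕ) : ℕ :=
  sInf {k : ℕ | 0 < k ∧ ∃ y : G, ∃ c ∈ Subgroup.center G, x ^ k = y ^ n * c}

lemma exists_order [Finite G] (hcl : commutator G ≤ Subgroup.center G) (x : G) (n : ℕ) :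
    ∃ k : ℕ, 0 < k ∧
      ∀ m : ℕ, (∃ y : G, ∃ c ∈ Subgroup.center G, x ^ m = y ^ n * c) ↔ k ∣ m := by
  let A := G ⧸ Subgroup.center G
  letI : CommGroup A := commQuot hcl
  have : Finite A := Quotient.finite _
  let q : G →* A := QuotientGroup.mk' (Subgroup.center G)
  let R : Subgroup A := (powMonoidHom n : A →* A).range
  let b : A ⧸ R := QuotientGroup.mk' R (q x)
  have : Finite (A ⧸ R) := Quotient.finite _
  refine ⟨orderOf b, orderOf_pos b, ?_⟩
  intro m
  rw [orderOf_dvd_iff_pow_eq_one]
  have h1 : b ^ m = 1 ↔ (q x) ^ m ∈ R := by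
    show (QuotientGroup.mk' R (q x)) ^ m = 1 ↔ _
    rw [← map_pow]
    exact QuotientGroup.eq_one_iff _
  rw [h1]
  constructor
  · rintro ⟨y, c, hcc, h⟩
    refine ⟨q y, ?_⟩
    show (q y) ^ n = (q x) ^ m
    have h2 : q c = 1 := (QuotientGroup.eq_one_iff c).mpr hcc
    rw [← map_pow, ← map_pow, h, map_mul, h2, mul_one]
  · rintro ⟨y, hy⟩
    obtain ⟨y, rfl⟩ := QuotientGroup.mk'_surjective _ y
    have h2 : q (y ^ n) = q (x ^ m) := by
      rw [map_pow, map_pow]
      exact hy
    have h3 : (y ^ n)⁻¹ * x ^ m ∈ Subgroup.center G := QuotientGroup.eq.mp h2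
    exact ⟨y, _, h3, by group⟩

lemma relOrder_spec [Finite G] (hcl : commutator G ≤ Subgroup.center G) (x : G) (n : ℕ) :
    0 < relOrder x n ∧
      ∀ m : ℕ, (∃ y : G, ∃ c ∈ Subgroup.center G, x ^ m = y ^ n * c) ↔ relOrder x n ∣ m := by
  obtain ⟨k, hk, h⟩ := exists_order hcl x n
  have e : relOrder x n = k := by
    have hmem : k ∈ {k : ℕ | 0 < k ∧ ∃ y : G, ∃ c ∈ Subgroup.center G, x ^ k = y ^ n * c} :=
      ⟨hk, (h k).mpr dvd_rfl⟩
    apply le_antisymm (Nat.sInf_le hmem)
    have h2 := Nat.sInf_mem (⟨k, hmem⟩ :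
      {k : ℕ | 0 < k ∧ ∃ y : G, ∃ c ∈ Subgroup.center G, x ^ k = y ^ n * c}.Nonempty)
    exact Nat.le_of_dvd h2.1 ((h _).mp h2.2)
  rw [e]
  exact ⟨hk, h⟩

lemma relOrder_dvd [Finite G] (hcl : commutator G ≤ Subgroup.center G) (x : G) (n : ℕ) :
    relOrder x n ∣ n :=
  ((relOrder_spec hcl x n).2 n).mp ⟨x, 1, Subgroup.one_mem _, by simp⟩

variable {ι : Type} [Fintype ι] (n : ι → ℕ) (hn : ∀ i, n i ≠ 0)
  (e : Subgroup.center G ≃* ((i : ι) → Multiplicative (ZMod (n i))))

include hn in
lemma pow_eq_one_zmod (i : ι) (t : Multiplicative (ZMod (n i))) : t ^ (n i) = 1 := by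
  have : NeZero (n i) := ⟨hn i⟩
  have hc : Nat.card (Multiplicative (ZMod (n i))) = n i := by
    rw [Nat.card_congr Multiplicative.toAdd, Nat.card_zmod]
  have h2 := pow_card_eq_one' (x := t)
  rw [hc] at h2
  exact h2

include hn in
lemma admissible_iff [Finite G] (hcl : commutator G ≤ Subgroup.center G) (x : G)
    (z : Subgroup.center G) :
    Admissible x (z : G) ↔ ∀ i, (e z i) ^ (relOrder x (n i)) = 1 := by
  constructor
  · intro h i
    obtain ⟨w, hw, e1⟩ := h _ (n i) (((relOrder_spec hcl x (n i)).2 _).mpr dvd_rfl)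
    have e2 : z ^ (relOrder x (n i)) = (⟨w, hw⟩ : Subgroup.center G) ^ (n i) := Subtype.ext e1
    have e3 := congrFun (congrArg e e2) i
    rw [map_pow, map_pow] at e3
    have e4 : (e z i) ^ (relOrder x (n i)) = (e ⟨w, hw⟩ i) ^ (n i) := e3
    rw [e4]
    exact pow_eq_one_zmod n hn i _
  · intro h
    let A := G ⧸ Subgroup.center G
    letI : CommGroup A := commQuot hcl
    have : Finite A := Quotient.finite _
    let q : G →* A := QuotientGroup.mk' (Subgroup.center G)
    have key : ∀ i : ι, ∃ f : A →* Multiplicative (ZMod (n i)), f (q x) = e z i := by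
      intro i
      have : NeZero (n i) := ⟨hn i⟩
      have hc : Nat.card (Multiplicative (ZMod (n i))) = n i := by
        rw [Nat.card_congr Multiplicative.toAdd, Nat.card_zmod]
      have : Finite (Multiplicative (ZMod (n i))) := inferInstance
      refine exists_hom_cyclic (q x) (e z i) ?_
      rintro m ⟨y, hy⟩
      rw [hc] at hy
      obtain ⟨y, rfl⟩ := QuotientGroup.mk'_surjective _ y
      have h2 : q (y ^ (n i)) = q (x ^ m) := by
        rw [map_pow, map_pow]
        exact hy.symm
      have h3 : (y ^ (n i))⁻¹ * x ^ m ∈ Subgroup.center G := QuotientGroup.eq.mp h2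
      obtain ⟨r, hr⟩ := ((relOrder_spec hcl x (n i)).2 m).mp ⟨y, _, h3, by group⟩
      rw [hr, pow_mul, h i, one_pow]
    choose f hf using key
    let F : G →* Subgroup.center G := (e.symm.toMonoidHom.comp (MonoidHom.pi f)).comp q
    have hF : F x = z := by
      show e.symm (fun i => f i (q x)) = z
      rw [MulEquiv.symm_apply_eq]
      funext i
      exact hf i
    have hF2 : ∀ c ∈ Subgroup.center G, F c = 1 := by
      intro c hcc
      have h2 : q c = 1 := (QuotientGroup.eq_one_iff c).mpr hcc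
      show e.symm (fun i => f i (q c)) = 1
      rw [h2, MulEquiv.symm_apply_eq, map_one]
      funext i
      exact map_one (f i)
    rw [← hF]
    exact hom_admissible hF2 x

include hn e in
lemma card_admissible [Finite G] (hcl : commutator G ≤ Subgroup.center G) (x : G) :
    Nat.card {z : Subgroup.center G // Admissible x (z : G)} = ∏ i, relOrder x (n i) := by
  classical
  have h1 : Nat.card {z : Subgroup.center G // Admissible x (z : G)} =
      Nat.card {t : (i : ι) → Multiplicative (ZMod (n i)) //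
        ∀ i, (t i) ^ (relOrder x (n i)) = 1} :=
    Nat.card_congr (e.toEquiv.subtypeEquiv (fun z => admissible_iff n hn e hcl x z))
  rw [h1, Nat.card_congr (Equiv.subtypePiEquivPi
    (p := fun i (t : Multiplicative (ZMod (n i))) => t ^ (relOrder x (n i)) = 1)), Nat.card_pi]
  apply Finset.prod_congr rfl
  intro i _
  have : NeZero (n i) := ⟨hn i⟩
  have hc : Nat.card (Multiplicative (ZMod (n i))) = n i := by
    rw [Nat.card_congr Multiplicative.toAdd, Nat.card_zmod]
  have : Finite (Multiplicative (ZMod (n i))) := inferInstance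
  have h2 := IsCyclic.card_powMonoidHom_ker (G := Multiplicative (ZMod (n i)))
    (relOrder x (n i))
  rw [hc, Nat.gcd_eq_right (relOrder_dvd hcl x (n i))] at h2
  exact h2

lemma card_class [Finite G] (hc : ∀ a b c : G, ⁅⁅a, b⁆, c⁆ = 1) (x : G) :
    Nat.card {y : G // IsConj x y} =
      Nat.card {z : Subgroup.center G // ∃ g, (z : G) = ⁅x, g⁆} := by
  apply Nat.card_congr
  refine
    { toFun := fun y => ⟨⟨x⁻¹ * y.1, ?_⟩, ?_⟩
      invFun := fun z => ⟨x * (z.1 : G), ?_⟩
      left_inv := ?_
      right_inv := ?_ }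
  · obtain ⟨g, hg⟩ := isConj_iff.mp y.2
    rw [← hg, ← conj_form hc, inv_mul_cancel_left]
    exact comm_center hc _ _
  · obtain ⟨g, hg⟩ := isConj_iff.mp y.2
    refine ⟨g⁻¹, ?_⟩
    show x⁻¹ * y.1 = _
    rw [← hg, ← conj_form hc, inv_mul_cancel_left]
  · obtain ⟨g, hg⟩ := z.2
    rw [hg, ← inv_inv g, conj_form hc]
    exact isConj_iff.mpr ⟨g⁻¹, rfl⟩
  · intro y
    apply Subtype.ext
    show x * (x⁻¹ * y.1) = y.1
    group
  · intro z
    apply Subtype.ext
    apply Subtype.ext
    show x⁻¹ * (x * (z.1 : G)) = z.1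
    group

include hn e in
/-- Class sizes are bounded by the power structure, with equality exactly when every admissible
central element is a commutator. -/
theorem class_size [Finite G] (hcl : commutator G ≤ Subgroup.center G) (x : G) :
    Nat.card {y : G // IsConj x y} ≤ ∏ i, relOrder x (n i) ∧
      (Nat.card {y : G // IsConj x y} = ∏ i, relOrder x (n i) ↔
        ∀ z : G, z ∈ Subgroup.center G → (Admissible x z → ∃ g, z = ⁅x, g⁆)) := by
  have hc := class_two hcl
  rw [card_class hc, ← card_admissible n hn e hcl x]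
  let S1 : Set (Subgroup.center G) := {z | ∃ g, (z : G) = ⁅x, g⁆}
  let S2 : Set (Subgroup.center G) := {z | Admissible x (z : G)}
  have hsub : S1 ⊆ S2 := by
    rintro z ⟨g, hg⟩
    show Admissible x (z : G)
    rw [hg]
    exact comm_admissible hc x g
  have e1 : Nat.card {z : Subgroup.center G // ∃ g, (z : G) = ⁅x, g⁆} = S1.ncard :=
    Nat.card_coe_set_eq S1
  have e2 : Nat.card {z : Subgroup.center G // Admissible x (z : G)} = S2.ncard :=
    Nat.card_coe_set_eq S2
  rw [e1, e2]
  refine ⟨Set.ncard_le_ncard hsub (Set.toFinite _), ?_, ?_⟩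
  · intro h z hz hadm
    have h3 : S1 = S2 := Set.eq_of_subset_of_ncard_le hsub h.ge (Set.toFinite _)
    have h4 : (⟨z, hz⟩ : Subgroup.center G) ∈ S2 := hadm
    rw [← h3] at h4
    exact h4
  · intro h
    have h3 : S1 = S2 := by
      apply Set.Subset.antisymm hsub
      intro z hz
      exact h z.1 z.2 hz
    rw [h3]

end

end Pool.Agent.Helper832.CentAut
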