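import Mathlib
import Pool.Agent.Helper832.CentAut.Size

/-!
Reduction to elements which are not `p`-th powers modulo the centre, and special cases.
-/

set_option autoImplicit false

open scoped commutatorElement

namespace Pool.Agent.Helper832.CentAut

open Pool.Agent.Helper832.AutC

section

variable {G : Type} [Group G]

lemma comm_pow (hc : ∀ a b c : G, ⁅⁅a, b⁆, c⁆ = 1) (x g : G) (m : ℕ) :
    ⁅x ^ m, g⁆ = ⁅x, g⁆ ^ m := by
  have h1 : pr hc (x ^ m) g = (pr hc x g) ^ m := by
    rw [map_pow]; rfl
  have h2 : ((pr hc (x ^ m) g : Subgroup.center G) : G) =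
      (((pr hc x g) ^ m : Subgroup.center G) : G) := congrArg Subtype.val h1
  rw [pr_coe, Subgroup.coe_pow, pr_coe] at h2
  exact h2

lemma comm_mul_central (hc : ∀ a b c : G, ⁅⁅a, b⁆, c⁆ = 1) (x c g : G)
    (hcc : c ∈ Subgroup.center G) : ⁅x * c, g⁆ = ⁅x, g⁆ := by
  have h2 : pr hc c g = 1 := by
    rw [pr_eq_one_iff, commutatorElement_eq_one_iff_mul_comm]
    exact ((Subgroup.mem_center_iff.mp hcc) g).symm
  have h1 : pr hc (x * c) g = pr hc x g := by
    have : pr hc (x * c) g = pr hc x g * pr hc c g := by
      rw [map_mul]; rfl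
    rw [this, h2, mul_one]
  exact congrArg Subtype.val h1

/-- It is enough to look at elements which are not `p`-th powers modulo the centre. -/
lemma reduce [Finite G] {p : ℕ} [hpf : Fact p.Prime] (hp : IsPGroup p G)
    (hcl : commutator G ≤ Subgroup.center G)
    (h : ∀ x : G, (¬ ∃ y : G, ∃ c ∈ Subgroup.center G, x = y ^ p * c) →
      ∀ z : G, z ∈ Subgroup.center G → (Admissible x z → ∃ g, z = ⁅x, g⁆)) :
    ∀ x z : G, z ∈ Subgroup.center G → (Admissible x z → ∃ g, z = ⁅x, g⁆) := by
  have hc := class_two hcl
  let A := G ⧸ Subgroup.center G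
  letI : CommGroup A := commQuot hcl
  have : Finite A := Quotient.finite _
  let q : G →* A := QuotientGroup.mk' (Subgroup.center G)
  have main : ∀ N : ℕ, ∀ x : G, Nat.card A - orderOf (q x) = N →
      ∀ z : G, z ∈ Subgroup.center G → (Admissible x z → ∃ g, z = ⁅x, g⁆) := by
    intro N
    induction N using Nat.strong_induction_on with
    | _ N ih =>
      intro x hxN z hz hadm
      by_cases hx : ∃ y : G, ∃ c ∈ Subgroup.center G, x = y ^ p * c
      · obtain ⟨f, hf, hf2⟩ := admissible_hom hcl x z hz hadm
        by_cases hxc : x ∈ Subgroup.center G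
        · refine ⟨1, ?_⟩
          have h1 : (⟨z, hz⟩ : Subgroup.center G) = 1 := by rw [← hf, hf2 x hxc]
          rw [commutatorElement_one_right]
          exact congrArg Subtype.val h1
        · obtain ⟨y, c, hcc, hy⟩ := hx
          have hqx : q x = (q y) ^ p := by
            have h2 : q c = 1 := (QuotientGroup.eq_one_iff c).mpr hcc
            rw [hy, map_mul, map_pow, h2, mul_one]
          have hqx1 : q x ≠ 1 := fun h0 => hxc ((QuotientGroup.eq_one_iff x).mp h0)
          have hpA : IsPGroup p A := hp.to_quotient _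
          obtain ⟨j, hj⟩ := (IsPGroup.iff_orderOf.mp hpA) (q y)
          have hj0 : 0 < j := by
            rcases Nat.eq_zero_or_pos j with h0 | h0
            · exfalso
              rw [h0, pow_zero, orderOf_eq_one_iff] at hj
              rw [hj, one_pow] at hqx
              exact hqx1 hqx
            · exact h0
          have hlt : orderOf (q x) < orderOf (q y) := by
            rw [hqx, orderOf_pow, hj, Nat.gcd_eq_right (dvd_pow_self p (by omega))]
            exact Nat.div_lt_self (pow_pos hpf.out.pos j) hpf.out.one_lt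
          have hle : orderOf (q y) ≤ Nat.card A := Nat.le_of_dvd Nat.card_pos (orderOf_dvd_natCard _)
          obtain ⟨g, hg⟩ := ih (Nat.card A - orderOf (q y)) (by omega) y rfl (f y) (f y).2
            (hom_admissible hf2 y)
          refine ⟨g, ?_⟩
          have h3 : f x = (f y) ^ p := by
            rw [hy, map_mul, map_pow, hf2 c hcc, mul_one]
          rw [hf] at h3
          have h4 := congrArg Subtype.val h3
          have h5 : z = ((f y : Subgroup.center G) : G) ^ p := by simpa using h4
          rw [h5, hg, hy, comm_mul_central hc _ _ _ hcc, comm_pow hc]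
      · exact h x hx z hz hadm
  intro x z hz hadm
  exact main _ x rfl z hz hadm

variable {ι : Type} [Fintype ι] (n : ι → ℕ) (hn : ∀ i, n i ≠ 0)
  (e : Subgroup.center G ≃* ((i : ι) → Multiplicative (ZMod (n i))))

include hn e in
theorem criterion_size [Finite G] {p : ℕ} [hpf : Fact p.Prime] (hp : IsPGroup p G)
    (hcl : commutator G ≤ Subgroup.center G) (hne : commutator G ≠ ⊥) :
    (∀ α : G ≃* G, IsCentralAut α ↔ IsClassPreserving α) ↔
      (Subgroup.center G = commutator G ∧
        ∀ x : G, (¬ ∃ y : G, ∃ c ∈ Subgroup.center G, x = y ^ p * c) →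
          Nat.card {y : G // IsConj x y} = ∏ i, relOrder x (n i)) := by
  rw [criterion hp hcl hne]
  have hc := class_two hcl
  constructor
  · rintro ⟨h1, h2⟩
    refine ⟨h1, fun x _ => ?_⟩
    rw [(class_size n hn e hcl x).2]
    exact fun z hz => (h2 x z hz).mp
  · rintro ⟨h1, h2⟩
    refine ⟨h1, ?_⟩
    have h3 := reduce hp hcl (fun x hx => ((class_size n hn e hcl x).2).mp (h2 x hx))
    intro x z hz
    refine ⟨h3 x z hz, ?_⟩
    rintro ⟨g, rfl⟩
    exact comm_admissible hc x g

include hn e in
theorem criterion_size_all [Finite G] {p : ℕ} [hpf : Fact p.Prime] (hp : IsPGroup p G)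
    (hcl : commutator G ≤ Subgroup.center G) (hne : commutator G ≠ ⊥) :
    (∀ α : G ≃* G, IsCentralAut α ↔ IsClassPreserving α) ↔
      (Subgroup.center G = commutator G ∧
        ∀ x : G, Nat.card {y : G // IsConj x y} = ∏ i, relOrder x (n i)) := by
  rw [criterion hp hcl hne]
  have hc := class_two hcl
  constructor
  · rintro ⟨h1, h2⟩
    refine ⟨h1, fun x => ?_⟩
    rw [(class_size n hn e hcl x).2]
    exact fun z hz => (h2 x z hz).mp
  · rintro ⟨h1, h2⟩
    refine ⟨h1, ?_⟩
    intro x z hz
    refine ⟨((class_size n hn e hcl x).2).mp (h2 x) z hz, ?_⟩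
    rintro ⟨g, rfl⟩
    exact comm_admissible hc x g

/-- If `n`-th powers are central, the relative order is the order modulo the centre. -/
lemma relOrder_eq [Finite G] (hcl : commutator G ≤ Subgroup.center G) (x : G) (N : ℕ)
    (hN : ∀ y : G, y ^ N ∈ Subgroup.center G) :
    relOrder x N = orderOf (QuotientGroup.mk x : G ⧸ Subgroup.center G) := by
  have hs := (relOrder_spec hcl x N).2
  apply Nat.dvd_antisymm
  · rw [← hs]
    refine ⟨1, x ^ orderOf (QuotientGroup.mk x : G ⧸ Subgroup.center G), ?_, by simp⟩
    have := pow_orderOf_eq_one (QuotientGroup.mk x : G ⧸ Subgroup.center G)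
    rw [← QuotientGroup.mk_pow] at this
    exact (QuotientGroup.eq_one_iff _).mp this
  · rw [orderOf_dvd_iff_pow_eq_one]
    obtain ⟨y, c, hcc, h⟩ := (hs _).mpr dvd_rfl
    rw [← QuotientGroup.mk_pow, h]
    exact (QuotientGroup.eq_one_iff _).mpr (Subgroup.mul_mem _ (hN y) hcc)

lemma pow_central [Finite G] (hcl : commutator G ≤ Subgroup.center G) (N : ℕ)
    (hN : ∀ z : Subgroup.center G, z ^ N = 1) (y : G) : y ^ N ∈ Subgroup.center G := by
  have hc := class_two hcl
  rw [Subgroup.mem_center_iff]
  intro g
  have h1 : ⁅y ^ N, g⁆ = 1 := by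
    rw [comm_pow hc]
    have := congrArg Subtype.val (hN ⟨⁅y, g⁆, comm_center hc y g⟩)
    simpa using this
  exact ((commutatorElement_eq_one_iff_mul_comm).mp h1).symm

/-- Homocyclic centre. -/
theorem criterion_homocyclic [Finite G] {p : ℕ} [hpf : Fact p.Prime] (hp : IsPGroup p G)
    (hcl : commutator G ≤ Subgroup.center G) (hne : commutator G ≠ ⊥) (r N : ℕ) (hN : N ≠ 0)
    (e : Subgroup.center G ≃* (Fin r → Multiplicative (ZMod N))) :
    (∀ α : G ≃* G, IsCentralAut α ↔ IsClassPreserving α) ↔
      (Subgroup.center G = commutator G ∧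
        ∀ x : G, Nat.card {y : G // IsConj x y} =
          orderOf (QuotientGroup.mk x : G ⧸ Subgroup.center G) ^ r) := by
  have h0 : ∀ z : Subgroup.center G, z ^ N = 1 := by
    intro z
    apply e.injective
    rw [map_pow, map_one]
    funext i
    exact pow_eq_one_zmod (fun _ : Fin r => N) (fun _ => hN) i (e z i)
  rw [criterion_size_all (fun _ : Fin r => N) (fun _ => hN) e hp hcl hne]
  have h1 : ∀ x : G, (∏ _i : Fin r, relOrder x N) =
      orderOf (QuotientGroup.mk x : G ⧸ Subgroup.center G) ^ r := by
    intro x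
    rw [Finset.prod_const, Finset.card_univ, Fintype.card_fin,
      relOrder_eq hcl x N (pow_central hcl N h0)]
  simp only [h1]

/-- Cyclic centre. -/
theorem criterion_cyclic [Finite G] {p : ℕ} [hpf : Fact p.Prime] (hp : IsPGroup p G)
    (hcl : commutator G ≤ Subgroup.center G) (hne : commutator G ≠ ⊥)
    (hcyc : IsCyclic (Subgroup.center G)) :
    (∀ α : G ≃* G, IsCentralAut α ↔ IsClassPreserving α) ↔
      Subgroup.center G = commutator G := by
  have hc := class_two hcl
  have hN : Nat.card (Subgroup.center G) ≠ 0 := Nat.card_pos.ne'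
  have : NeZero (Nat.card (Subgroup.center G)) := ⟨hN⟩
  let e1 : Subgroup.center G ≃* Multiplicative (ZMod (Nat.card (Subgroup.center G))) :=
    mulEquivOfCyclicCardEq (by rw [Nat.card_congr Multiplicative.toAdd, Nat.card_zmod])
  let e : Subgroup.center G ≃*
      ((i : Unit) → Multiplicative (ZMod ((fun _ : Unit => Nat.card (Subgroup.center G)) i))) :=
    e1.trans (MulEquiv.funUnique Unit _).symm
  rw [criterion_size_all (fun _ : Unit => Nat.card (Subgroup.center G)) (fun _ => hN) e hp hcl hne]
  constructor
  · exact fun h => h.1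
  · intro h
    refine ⟨h, fun x => ?_⟩
    apply le_antisymm (class_size (fun _ : Unit => Nat.card (Subgroup.center G))
      (fun _ => hN) e hcl x).1
    rw [Finset.univ_unique, Finset.prod_singleton]
    apply Nat.le_of_dvd
    · have : Nonempty {y : G // IsConj x y} := ⟨⟨x, IsConj.refl x⟩⟩
      exact Nat.card_pos
    · rw [← (relOrder_spec hcl x _).2]
      refine ⟨1, x ^ Nat.card {y : G // IsConj x y}, ?_, by simp⟩
      rw [card_class hc]
      have hrange : Nat.card {z : Subgroup.center G // ∃ g, (z : G) = ⁅x, g⁆} =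
          Nat.card (pr hc x).range := by
        apply Nat.card_congr
        apply Equiv.subtypeEquivRight
        intro z
        constructor
        · rintro ⟨g, hg⟩
          exact ⟨g, Subtype.ext hg.symm⟩
        · rintro ⟨g, hg⟩
          exact ⟨g, (congrArg Subtype.val hg).symm⟩
      rw [hrange, Subgroup.mem_center_iff]
      intro g
      have h2 : ⁅x ^ Nat.card (pr hc x).range, g⁆ = 1 := by
        rw [comm_pow hc]
        have h3 := pow_card_eq_one' (x := (⟨pr hc x g, g, rfl⟩ : (pr hc x).range))
        have h4 := congrArg (fun t : (pr hc x).range => ((t : Subgroup.center G) : G)) h3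
        simpa [pr_coe] using h4
      exact ((commutatorElement_eq_one_iff_mul_comm).mp h2).symm

end

end Pool.Agent.Helper832.CentAut
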