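import Mathlib
import Pool.Agent.Helper832.CentAut.Red

/-!
Groups all of whose automorphisms are class-preserving.
-/

set_option autoImplicit false

open scoped commutatorElement

namespace Pool.Agent.Helper832.CentAut

open Pool.Agent.Helper832.AutC

section

variable {G : Type} [Group G]

lemma fix_center {α : G ≃* G} (h : IsClassPreserving α) {z : G} (hz : z ∈ Subgroup.center G) :
    α z = z := by
  obtain ⟨g, hg⟩ := isConj_iff.mp (h z)
  rw [← hg, (Subgroup.mem_center_iff.mp hz) g]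
  group

lemma central_of_comm (hab : ∀ α β : G ≃* G, ∀ x, α (β x) = β (α x)) (α : G ≃* G) :
    IsCentralAut α := by
  intro g
  rw [Subgroup.mem_center_iff]
  intro y
  obtain ⟨x, rfl⟩ := α.surjective y
  have h := hab α (MulAut.conj g) x
  have h1 : α (g * x * g⁻¹) = g * α x * g⁻¹ := h
  rw [map_mul, map_mul, map_inv] at h1
  have h2 : α x = g⁻¹ * (α g * α x * (α g)⁻¹) * g := by
    rw [h1]; group
  calc α x * (g⁻¹ * α g) = (g⁻¹ * (α g * α x * (α g)⁻¹) * g) * (g⁻¹ * α g) := by rw [← h2]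
    _ = g⁻¹ * α g * α x := by group

lemma comm_of_class (hc : ∀ a b c : G, ⁅⁅a, b⁆, c⁆ = 1)
    (h : ∀ α : G ≃* G, IsClassPreserving α) (α β : G ≃* G) (x : G) :
    α (β x) = β (α x) := by
  have ha := central_of_class hc α (h α) x
  have hb := central_of_class hc β (h β) x
  have e1 : β x = x * (x⁻¹ * β x) := by group
  have e2 : α x = x * (x⁻¹ * α x) := by group
  have f1 : α (x⁻¹ * β x) = x⁻¹ * β x := fix_center (h α) hb
  have f2 : β (x⁻¹ * α x) = x⁻¹ * α x := fix_center (h β) ha
  have g1 : α (β x) = α x * (x⁻¹ * β x) := by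
    rw [e1, map_mul, f1]
    group
  have g2 : β (α x) = β x * (x⁻¹ * α x) := by
    rw [e2, map_mul, f2]
    group
  rw [g1, g2]
  have h3 := (Subgroup.mem_center_iff.mp ha) (x⁻¹ * β x)
  calc α x * (x⁻¹ * β x) = x * ((x⁻¹ * α x) * (x⁻¹ * β x)) := by group
    _ = x * ((x⁻¹ * β x) * (x⁻¹ * α x)) := by rw [h3]
    _ = β x * (x⁻¹ * α x) := by group

variable {ι : Type} [Fintype ι] (n : ι → ℕ) (hn : ∀ i, n i ≠ 0)
  (e : Subgroup.center G ≃* ((i : ι) → Multiplicative (ZMod (n i))))

include hn e in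
theorem all_class [Finite G] {p : ℕ} [hpf : Fact p.Prime] (hp : IsPGroup p G)
    (hcl : commutator G ≤ Subgroup.center G) (hne : commutator G ≠ ⊥) :
    (∀ α : G ≃* G, IsClassPreserving α) ↔
      ((∀ α β : G ≃* G, ∀ x, α (β x) = β (α x)) ∧ Subgroup.center G = commutator G ∧
        ∀ x : G, (¬ ∃ y : G, ∃ c ∈ Subgroup.center G, x = y ^ p * c) →
          Nat.card {y : G // IsConj x y} = ∏ i, relOrder x (n i)) := by
  have hc := class_two hcl
  rw [← criterion_size n hn e hp hcl hne]
  constructor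
  · intro h
    exact ⟨comm_of_class hc h, fun α => ⟨fun _ => h α, fun _ => central_of_class hc α (h α)⟩⟩
  · rintro ⟨h1, h2⟩ α
    exact (h2 α).mp (central_of_comm h1 α)

end

end Pool.Agent.Helper832.CentAut
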