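import Mathlib
import Pool.Agent.Helper832.CentAut.Red

/-!
Homocyclic centre: the criterion on elements of order `p` modulo the centre and on quotients.
-/

set_option autoImplicit false

open scoped commutatorElement

namespace Pool.Agent.Helper832.CentAut

open Pool.Agent.Helper832.AutC

section

variable {G : Type} [Group G]

lemma comm_mul_right (hc : ∀ a b c : G, ⁅⁅a, b⁆, c⁆ = 1) (x g h : G) :
    ⁅x, g * h⁆ = ⁅x, g⁆ * ⁅x, h⁆ := by
  have h1 : pr hc x (g * h) = pr hc x g * pr hc x h := map_mul _ _ _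
  have h2 : ((pr hc x (g * h) : Subgroup.center G) : G) =
      ((pr hc x g * pr hc x h : Subgroup.center G) : G) := congrArg Subtype.val h1
  rw [pr_coe, Subgroup.coe_mul, pr_coe, pr_coe] at h2
  exact h2

lemma comm_pow_right (hc : ∀ a b c : G, ⁅⁅a, b⁆, c⁆ = 1) (x g : G) (m : ℕ) :
    ⁅x, g ^ m⁆ = ⁅x, g⁆ ^ m := by
  have h1 : pr hc x (g ^ m) = (pr hc x g) ^ m := map_pow _ _ _
  have h2 : ((pr hc x (g ^ m) : Subgroup.center G) : G) =
      (((pr hc x g) ^ m : Subgroup.center G) : G) := congrArg Subtype.val h1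
  rw [pr_coe, Subgroup.coe_pow, pr_coe] at h2
  exact h2

/-- From elements of order `p` modulo the centre to all elements. -/
lemma socle_step {p : ℕ} (hc : ∀ a b c : G, ⁅⁅a, b⁆, c⁆ = 1)
    (h : ∀ y : G, y ∉ Subgroup.center G → y ^ p ∈ Subgroup.center G →
      ∀ z ∈ Subgroup.center G, z ^ p = 1 → ∃ g, z = ⁅y, g⁆) :
    ∀ k : ℕ, ∀ x : G, x ^ (p ^ k) ∈ Subgroup.center G →
      (∀ j, j < k → x ^ (p ^ j) ∉ Subgroup.center G) →
      ∀ z ∈ Subgroup.center G, z ^ (p ^ k) = 1 → ∃ g, z = ⁅x, g⁆ := by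
  intro k
  induction k with
  | zero =>
    intro x _ _ z _ hzk
    refine ⟨1, ?_⟩
    rw [commutatorElement_one_right]
    simpa using hzk
  | succ k ih =>
    intro x hx1 hx2 z hz hzk
    have hy1 : x ^ (p ^ k) ∉ Subgroup.center G := hx2 k (Nat.lt_succ_self k)
    have hy2 : (x ^ (p ^ k)) ^ p ∈ Subgroup.center G := by
      rw [← pow_mul, ← pow_succ]
      exact hx1
    obtain ⟨g, hg⟩ := h _ hy1 hy2 (z ^ (p ^ k)) (Subgroup.pow_mem _ hz _) (by
      rw [← pow_mul, ← pow_succ]
      exact hzk)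
    rw [comm_pow hc] at hg
    have hcen : ⁅x, g⁆ ∈ Subgroup.center G := comm_center hc x g
    let z' : G := z * (⁅x, g⁆)⁻¹
    have hz' : z' ∈ Subgroup.center G := Subgroup.mul_mem _ hz (Subgroup.inv_mem _ hcen)
    have hz'k : z' ^ (p ^ k) = 1 := by
      have hcomm : Commute z (⁅x, g⁆)⁻¹ := ((Subgroup.mem_center_iff.mp hz) _).symm
      show (z * (⁅x, g⁆)⁻¹) ^ (p ^ k) = 1
      rw [hcomm.mul_pow, hg, inv_pow, mul_inv_cancel]
    obtain ⟨g', hg'⟩ := ih (x ^ p) (by
        rw [← pow_mul, ← pow_succ']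
        exact hx1) (by
        intro j hj
        rw [← pow_mul, ← pow_succ']
        exact hx2 (j + 1) (by omega)) z' hz' hz'k
    refine ⟨g' ^ p * g, ?_⟩
    rw [comm_mul_right hc, comm_pow_right hc, ← comm_pow hc, ← hg']
    show z = z * (⁅x, g⁆)⁻¹ * ⁅x, g⁆
    group

/-- the least power of `p` carrying `x` into the centre -/
lemma exists_level [Finite G] {p : ℕ} [hpf : Fact p.Prime] (hp : IsPGroup p G) (x : G) :
    ∃ k : ℕ, x ^ (p ^ k) ∈ Subgroup.center G ∧ ∀ j, j < k → x ^ (p ^ j) ∉ Subgroup.center G := by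
  classical
  have hex : ∃ k : ℕ, x ^ (p ^ k) ∈ Subgroup.center G := by
    obtain ⟨k, hk⟩ := hp x
    exact ⟨k, by rw [hk]; exact Subgroup.one_mem _⟩
  exact ⟨Nat.find hex, Nat.find_spec hex, fun j hj => Nat.find_min hex hj⟩

/-- Sufficiency without any assumption on the centre. -/
theorem socle_suff [Finite G] {p : ℕ} [hpf : Fact p.Prime] (hp : IsPGroup p G)
    (hcl : commutator G ≤ Subgroup.center G) (hne : commutator G ≠ ⊥)
    (hZ : Subgroup.center G = commutator G)
    (h : ∀ y : G, y ∉ Subgroup.center G → y ^ p ∈ Subgroup.center G →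
      ∀ z ∈ Subgroup.center G, z ^ p = 1 → ∃ g, z = ⁅y, g⁆) :
    ∀ α : G ≃* G, IsCentralAut α ↔ IsClassPreserving α := by
  have hc := class_two hcl
  rw [criterion hp hcl hne]
  refine ⟨hZ, fun x z hz => ⟨fun hadm => ?_, ?_⟩⟩
  · obtain ⟨k, hk1, hk2⟩ := exists_level hp x
    obtain ⟨w, _, hw⟩ := hadm (p ^ k) 0 ⟨1, x ^ (p ^ k), hk1, by simp⟩
    rw [pow_zero] at hw
    exact socle_step hc h k x hk1 hk2 z hz hw
  · rintro ⟨g, rfl⟩
    exact comm_admissible hc x g

theorem socle_nec [Finite G] {p : ℕ} [hpf : Fact p.Prime] (hp : IsPGroup p G)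
    (hcl : commutator G ≤ Subgroup.center G) (hne : commutator G ≠ ⊥) (r N : ℕ) (hN : N ≠ 0)
    (e : Subgroup.center G ≃* (Fin r → Multiplicative (ZMod N)))
    (H : ∀ α : G ≃* G, IsCentralAut α ↔ IsClassPreserving α) :
    ∀ y : G, y ∉ Subgroup.center G → y ^ p ∈ Subgroup.center G →
      ∀ z ∈ Subgroup.center G, z ^ p = 1 → ∃ g, z = ⁅y, g⁆ := by
  intro y hy1 hy2 z hz hzp
  have h0 : ∀ z : Subgroup.center G, z ^ N = 1 := by
    intro z
    apply e.injective
    rw [map_pow, map_one]
    funext i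
    exact pow_eq_one_zmod (fun _ : Fin r => N) (fun _ => hN) i (e z i)
  have hc := class_two hcl
  obtain ⟨_, h2⟩ := (criterion hp hcl hne).mp H
  apply (h2 y z hz).mp
  -- admissibility from the homocyclic structure
  have hadm := (admissible_iff (fun _ : Fin r => N) (fun _ => hN) e hcl y ⟨z, hz⟩).mpr (by
    intro i
    rw [relOrder_eq hcl y N (pow_central hcl N h0)]
    have hord : orderOf (QuotientGroup.mk y : G ⧸ Subgroup.center G) = p := by
      apply orderOf_eq_prime
      · rw [← QuotientGroup.mk_pow]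
        exact (QuotientGroup.eq_one_iff _).mpr hy2
      · intro h1
        exact hy1 ((QuotientGroup.eq_one_iff _).mp h1)
    rw [hord]
    have h3 : (⟨z, hz⟩ : Subgroup.center G) ^ p = 1 := Subtype.ext hzp
    have h4 := congrFun (congrArg e h3) i
    rw [map_pow, map_one] at h4
    exact h4)
  exact hadm

/-- The quotient form. -/
theorem quot_iff [Finite G] {p : ℕ} [hpf : Fact p.Prime] (hp : IsPGroup p G)
    (hcl : commutator G ≤ Subgroup.center G) (r k : ℕ) (hk : k ≠ 0)
    (e : Subgroup.center G ≃* (Fin r → Multiplicative (ZMod (p ^ k)))) :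
    (∀ y : G, y ∉ Subgroup.center G → y ^ p ∈ Subgroup.center G →
      ∀ z ∈ Subgroup.center G, z ^ p = 1 → ∃ g, z = ⁅y, g⁆) ↔
    (∀ N : Subgroup G, N ≤ Subgroup.center G →
      (∃ z : G, orderOf z = p ^ k ∧ N ⊔ Subgroup.zpowers z = Subgroup.center G ∧
        N ⊓ Subgroup.zpowers z = ⊥) →
      ∀ x : G, (∀ g, ⁅x, g⁆ ∈ N) → x ∈ Subgroup.center G) := by
  have hc := class_two hcl
  have hpk : p ^ k ≠ 0 := pow_ne_zero _ hpf.out.ne_zero
  constructor
  · rintro h N hN ⟨z, hz1, hz2, hz3⟩ x hx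
    by_contra hxc
    obtain ⟨j, hj1, hj2⟩ := exists_level hp x
    have hj0 : j ≠ 0 := by
      rintro rfl
      simp at hj1
      exact hxc hj1
    obtain ⟨i, rfl⟩ := Nat.exists_eq_succ_of_ne_zero hj0
    have hzc : z ∈ Subgroup.center G := by
      rw [← hz2]
      exact Subgroup.mem_sup_right (Subgroup.mem_zpowers z)
    obtain ⟨l, rfl⟩ := Nat.exists_eq_succ_of_ne_zero hk
    have hy1 := hj2 i (Nat.lt_succ_self i)
    have hy2 : (x ^ (p ^ i)) ^ p ∈ Subgroup.center G := by
      rw [← pow_mul, ← pow_succ]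
      exact hj1
    obtain ⟨g, hg⟩ := h _ hy1 hy2 (z ^ (p ^ l)) (Subgroup.pow_mem _ hzc _) (by
      rw [← pow_mul, ← pow_succ, ← hz1]
      exact pow_orderOf_eq_one z)
    have h1 : z ^ (p ^ l) ∈ N ⊓ Subgroup.zpowers z := by
      refine ⟨?_, Subgroup.pow_mem _ (Subgroup.mem_zpowers z) _⟩
      rw [hg, comm_pow hc]
      exact Subgroup.pow_mem _ (hx g) _
    rw [hz3, Subgroup.mem_bot] at h1
    have h2 := orderOf_dvd_of_pow_eq_one h1
    rw [hz1] at h2
    have h3 := (Nat.pow_dvd_pow_iff_le_right hpf.out.one_lt).mp h2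
    omega
  · intro h y hy1 hy2 w hw hwp
    by_contra hcon
    push Not at hcon
    let W : Subgroup.center G := ⟨w, hw⟩
    let R : Subgroup (Subgroup.center G) := (pr hc y).range
    have hWR : W ∉ R := by
      rintro ⟨g, hg⟩
      exact hcon g (congrArg Subtype.val hg).symm
    rw [← CommGroup.forall_monoidHom_apply_eq_one_iff (M := ℂ) R] at hWR
    push Not at hWR
    obtain ⟨χ, hχ, hχw⟩ := hWR
    obtain ⟨l, rfl⟩ := Nat.exists_eq_succ_of_ne_zero hk
    have hexp : ∀ z : Subgroup.center G, z ^ (p ^ (l + 1)) = 1 := by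
      intro z
      apply e.injective
      rw [map_pow, map_one]
      funext i
      exact pow_eq_one_zmod (fun _ : Fin r => p ^ (l + 1)) (fun _ => hpk) i (e z i)
    -- `W` is a `p ^ l`-th power
    obtain ⟨V, hV⟩ : ∃ V : Subgroup.center G, W = V ^ (p ^ l) := by
      have hi : ∀ i : Fin r, ∃ t : Multiplicative (ZMod (p ^ (l + 1))), e W i = t ^ (p ^ l) := by
        intro i
        have : NeZero (p ^ (l + 1)) := ⟨hpk⟩
        have h1 : (e W i) ^ p = 1 := by
          have h2 : W ^ p = 1 := Subtype.ext hwp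
          have h3 := congrFun (congrArg e h2) i
          rw [map_pow, map_one] at h3
          exact h3
        obtain ⟨c, hcg⟩ := IsCyclic.exists_generator (α := Multiplicative (ZMod (p ^ (l + 1))))
        obtain ⟨s, hs⟩ := Subgroup.mem_zpowers_iff.mp (hcg (e W i))
        have hco : orderOf c = p ^ (l + 1) := by
          rw [orderOf_eq_card_of_forall_mem_zpowers hcg, Nat.card_congr Multiplicative.toAdd,
            Nat.card_zmod]
        have h4 : c ^ (s * p) = 1 := by
          rw [zpow_mul, hs]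
          exact_mod_cast h1
        rw [← orderOf_dvd_iff_zpow_eq_one, hco] at h4
        have h5 : ((p : ℤ) ^ l) ∣ s := by
          have h6 : (p : ℤ) ^ l * p ∣ s * p := by
            have : (((p ^ (l + 1) : ℕ)) : ℤ) = (p : ℤ) ^ l * p := by
              push_cast
              rw [pow_succ]
            rw [← this]
            exact h4
          exact (mul_dvd_mul_iff_right (by exact_mod_cast hpf.out.ne_zero)).mp h6
        obtain ⟨s', hs'⟩ := h5
        refine ⟨c ^ s', ?_⟩
        rw [← hs, hs', ← zpow_natCast, ← zpow_mul]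
        congr 1
        push_cast
        ring
      choose t ht using hi
      refine ⟨e.symm t, ?_⟩
      apply e.injective
      rw [map_pow, MulEquiv.apply_symm_apply]
      funext i
      exact ht i
    have hχV : orderOf (χ V) = p ^ (l + 1) := by
      apply orderOf_eq_prime_pow
      · rw [← map_pow, ← hV]
        exact hχw
      · rw [← map_pow, hexp, map_one]
    have hVo : orderOf V = p ^ (l + 1) := by
      apply Nat.dvd_antisymm
      · exact orderOf_dvd_of_pow_eq_one (hexp V)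
      · rw [← hχV]
        exact orderOf_map_dvd χ V
    let N : Subgroup G := χ.ker.map (Subgroup.center G).subtype
    have hN : N ≤ Subgroup.center G := by
      rintro _ ⟨z, _, rfl⟩
      exact z.2
    have hVG : orderOf (V : G) = p ^ (l + 1) := by
      rw [Subgroup.orderOf_coe, hVo]
    have hroot : ∀ z : Subgroup.center G, ∃ j : ℤ, χ z = (χ V) ^ j := by
      intro z
      have hpk' : NeZero (p ^ (l + 1)) := ⟨hpk⟩
      have h1 : (χ z) ^ (p ^ (l + 1)) = 1 := by rw [← map_pow, hexp, map_one]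
      have hprim : IsPrimitiveRoot (χ V) (p ^ (l + 1)) := by
        rw [← hχV]
        exact IsPrimitiveRoot.orderOf _
      have h2 := hprim.zpowers_eq
      have h3 : χ z ∈ rootsOfUnity (p ^ (l + 1)) ℂ := h1
      rw [← h2] at h3
      obtain ⟨j, hj⟩ := Subgroup.mem_zpowers_iff.mp h3
      exact ⟨j, hj.symm⟩
    have hsup : N ⊔ Subgroup.zpowers (V : G) = Subgroup.center G := by
      apply le_antisymm
      · apply sup_le hN
        rw [Subgroup.zpowers_le]
        exact V.2
      · intro z hz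
        obtain ⟨j, hj⟩ := hroot ⟨z, hz⟩
        have h1 : (⟨z, hz⟩ : Subgroup.center G) * (V ^ j)⁻¹ ∈ χ.ker := by
          rw [MonoidHom.mem_ker, map_mul, map_inv, map_zpow, hj, mul_inv_cancel]
        have h2 : z = (((⟨z, hz⟩ : Subgroup.center G) * (V ^ j)⁻¹ : Subgroup.center G) : G) *
            (V : G) ^ j := by
          simp
        rw [h2]
        apply Subgroup.mul_mem_sup
        · exact ⟨_, h1, rfl⟩
        · exact Subgroup.zpow_mem _ (Subgroup.mem_zpowers _) j
    have hinf : N ⊓ Subgroup.zpowers (V : G) = ⊥ := by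
      rw [eq_bot_iff]
      rintro z ⟨⟨z', hz', rfl⟩, hz2⟩
      obtain ⟨j, hj⟩ := Subgroup.mem_zpowers_iff.mp hz2
      have h1 : z' = V ^ j := by
        apply Subtype.ext
        rw [Subgroup.coe_zpow]
        exact hj.symm
      have h2 : (χ V) ^ j = 1 := by
        rw [← map_zpow, ← h1]
        exact hz'
      rw [← orderOf_dvd_iff_zpow_eq_one, hχV, ← hVo, orderOf_dvd_iff_zpow_eq_one] at h2
      rw [Subgroup.mem_bot, h1, h2]
      rfl
    apply hy1
    apply h N hN ⟨V, hVG, hsup, hinf⟩ y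
    intro g
    exact ⟨pr hc y g, hχ _ ⟨g, rfl⟩, rfl⟩

end

end Pool.Agent.Helper832.CentAut
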