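import Mathlib
import Pool.Agent.Helper832.CentAut.Homo

/-!
Homocyclic central quotient.
-/

set_option autoImplicit false

open scoped commutatorElement

namespace Pool.Agent.Helper832.CentAut

open Pool.Agent.Helper832.AutC

section

variable {G : Type} [Group G]

/-- Sufficiency without any assumption on the central quotient. -/
theorem top_suff [Finite G] {p : ℕ} [hpf : Fact p.Prime] (hp : IsPGroup p G)
    (hcl : commutator G ≤ Subgroup.center G) (hne : commutator G ≠ ⊥)
    (hZ : Subgroup.center G = commutator G)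
    (h : ∀ x : G, (¬ ∃ y : G, ∃ c ∈ Subgroup.center G, x = y ^ p * c) →
      ∀ z ∈ Subgroup.center G, ∃ g, z = ⁅x, g⁆) :
    ∀ α : G ≃* G, IsCentralAut α ↔ IsClassPreserving α := by
  have hc := class_two hcl
  rw [criterion hp hcl hne]
  have h3 := reduce hp hcl (fun x hx z hz _ => h x hx z hz)
  refine ⟨hZ, fun x z hz => ⟨h3 x z hz, ?_⟩⟩
  rintro ⟨g, rfl⟩
  exact comm_admissible hc x g

theorem top_nec [Finite G] {p : ℕ} [hpf : Fact p.Prime] (hp : IsPGroup p G)
    (hcl : commutator G ≤ Subgroup.center G) (hne : commutator G ≠ ⊥) (d a : ℕ)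
    (e : (G ⧸ Subgroup.center G) ≃* (Fin d → Multiplicative (ZMod (p ^ a))))
    (H : ∀ α : G ≃* G, IsCentralAut α ↔ IsClassPreserving α) :
    ∀ x : G, (¬ ∃ y : G, ∃ c ∈ Subgroup.center G, x = y ^ p * c) →
      ∀ z ∈ Subgroup.center G, ∃ g, z = ⁅x, g⁆ := by
  have hc := class_two hcl
  obtain ⟨hZ, h2⟩ := (criterion hp hcl hne).mp H
  have hpa : p ^ a ≠ 0 := pow_ne_zero _ hpf.out.ne_zero
  have : NeZero (p ^ a) := ⟨hpa⟩
  let q : G →* G ⧸ Subgroup.center G := QuotientGroup.mk' (Subgroup.center G)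
  -- the exponent of the central quotient
  have hq : ∀ x : G, x ^ (p ^ a) ∈ Subgroup.center G := by
    intro x
    have h1 : (q x) ^ (p ^ a) = 1 := by
      apply e.injective
      rw [map_pow, map_one]
      funext i
      exact pow_eq_one_zmod (fun _ : Fin d => p ^ a) (fun _ => hpa) i (e (q x) i)
    rw [← map_pow] at h1
    exact (QuotientGroup.eq_one_iff _).mp h1
  have hexp : ∀ z ∈ Subgroup.center G, z ^ (p ^ a) = 1 := by
    let K : Subgroup (Subgroup.center G) :=
      (powMonoidHom (p ^ a) : Subgroup.center G →* Subgroup.center G).ker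
    have hK : commutator G ≤ K.map (Subgroup.center G).subtype := by
      rw [commutator_eq_closure, Subgroup.closure_le]
      rintro _ ⟨x, g, rfl⟩
      refine ⟨⟨⁅x, g⁆, comm_center hc x g⟩, ?_, rfl⟩
      have h1 : ⁅x, g⁆ ^ (p ^ a) = 1 := by
        rw [← comm_pow hc, commutatorElement_eq_one_iff_mul_comm]
        exact ((Subgroup.mem_center_iff.mp (hq x)) g).symm
      exact Subtype.ext h1
    intro z hz
    rw [hZ] at hz
    obtain ⟨z', hz', rfl⟩ := hK hz
    exact congrArg Subtype.val hz'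
  intro x hx z hz
  obtain ⟨i, hi⟩ : ∃ i : Fin d, ¬ ∃ t : Multiplicative (ZMod (p ^ a)), e (q x) i = t ^ p := by
    by_contra hcon
    push Not at hcon
    choose t ht using hcon
    obtain ⟨y, hy⟩ := QuotientGroup.mk'_surjective _ (e.symm t)
    apply hx
    have h1 : q x = q (y ^ p) := by
      apply e.injective
      have h3 : q y = e.symm t := hy
      rw [map_pow, map_pow, h3, MulEquiv.apply_symm_apply]
      funext i
      exact ht i
    have h3 : (y ^ p)⁻¹ * x ∈ Subgroup.center G := QuotientGroup.eq.mp h1.symm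
    exact ⟨y, _, h3, by group⟩
  have : Finite (Multiplicative (ZMod (p ^ a))) := inferInstance
  obtain ⟨c, hcg⟩ := IsCyclic.exists_generator (α := Multiplicative (ZMod (p ^ a)))
  have hco : orderOf c = p ^ a := by
    rw [orderOf_eq_card_of_forall_mem_zpowers hcg, Nat.card_congr Multiplicative.toAdd,
      Nat.card_zmod]
  obtain ⟨s, hs⟩ := mem_powers_iff_mem_zpowers.mpr (hcg (e (q x) i))
  have hs' : c ^ s = e (q x) i := hs
  have hps : ¬ p ∣ s := by
    rintro ⟨u, rfl⟩
    apply hi
    exact ⟨c ^ u, by rw [← hs', ← pow_mul, mul_comm]⟩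
  have hord : orderOf (e (q x) i) = p ^ a := by
    rw [← hs', orderOf_pow, hco]
    have : Nat.Coprime (p ^ a) s :=
      Nat.Coprime.pow_left _ ((Nat.Prime.coprime_iff_not_dvd hpf.out).mpr hps)
    rw [this, Nat.div_one]
  have hgen : ∀ t : Multiplicative (ZMod (p ^ a)), t ∈ Subgroup.zpowers (e (q x) i) := by
    intro t
    have h1 : Subgroup.zpowers (e (q x) i) = ⊤ := by
      apply Subgroup.eq_top_of_card_eq
      rw [Nat.card_zpowers, hord, Nat.card_congr Multiplicative.toAdd, Nat.card_zmod]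
    rw [h1]
    exact Subgroup.mem_top t
  have hdvd : orderOf (⟨z, hz⟩ : Subgroup.center G) ∣ orderOf (e (q x) i) := by
    rw [hord]
    exact orderOf_dvd_of_pow_eq_one (Subtype.ext (hexp z hz))
  let g : Multiplicative (ZMod (p ^ a)) →* Subgroup.center G :=
    monoidHomOfForallMemZpowers hgen hdvd
  have hg : g (e (q x) i) = ⟨z, hz⟩ := monoidHomOfForallMemZpowers_apply_gen hgen hdvd
  let f : G →* Subgroup.center G :=
    (g.comp ((Pi.evalMonoidHom _ i).comp e.toMonoidHom)).comp q
  have hf : f x = ⟨z, hz⟩ := hg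
  have hf2 : ∀ c ∈ Subgroup.center G, f c = 1 := by
    intro c hcc
    have h3 : q c = 1 := (QuotientGroup.eq_one_iff c).mpr hcc
    show (g.comp ((Pi.evalMonoidHom _ i).comp e.toMonoidHom)) (q c) = 1
    rw [h3, map_one]
  have hadm := hom_admissible hf2 x
  rw [hf] at hadm
  exact (h2 x z hz).mp hadm

theorem top_quot [Finite G] {p : ℕ} (hcl : commutator G ≤ Subgroup.center G) :
    (∀ x : G, (¬ ∃ y : G, ∃ c ∈ Subgroup.center G, x = y ^ p * c) →
      ∀ z ∈ Subgroup.center G, ∃ g, z = ⁅x, g⁆) ↔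
    (∀ N : Subgroup G, N ⋖ Subgroup.center G → ∀ x : G, (∀ g, ⁅x, g⁆ ∈ N) →
      ∃ y : G, ∃ c ∈ Subgroup.center G, x = y ^ p * c) := by
  have hc := class_two hcl
  constructor
  · intro h N hN x hx
    by_contra hcon
    have h1 : Subgroup.center G ≤ N := by
      intro z hz
      obtain ⟨g, hg⟩ := h x hcon z hz
      rw [hg]
      exact hx g
    exact absurd (lt_of_lt_of_le hN.lt h1) (lt_irrefl _)
  · intro h x hx z hz
    by_contra hcon
    push Not at hcon
    let R : Subgroup G := (pr hc x).range.map (Subgroup.center G).subtype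
    have hR : R < Subgroup.center G := by
      refine lt_of_le_of_ne ?_ ?_
      · rintro _ ⟨t, _, rfl⟩
        exact t.2
      · intro h0
        rw [← h0] at hz
        obtain ⟨t, ⟨g, hg⟩, ht⟩ := hz
        apply hcon g
        rw [← ht, ← hg]
        rfl
    obtain ⟨N, hN1, hN2⟩ := exists_le_covBy_of_lt hR
    apply hx
    apply h N hN2 x
    intro g
    exact hN1 ⟨pr hc x g, ⟨g, rfl⟩, rfl⟩

end

end Pool.Agent.Helper832.CentAut
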